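import Pool.Agent.Helper97.AP.Tile

open Filter
open Pool.Agent.Helper57.PC

namespace Pool.Agent.Helper97.Draft.FormFactorBeyondOne2

/-- The form factor of Baluyot, Goldston, Suriajaya and Turnage-Butterbaugh (on RH: Montgomery's):
`(T log T/2π)⁻¹ ∑∑ m_ρ m_ρ' T^(α(ρ-ρ')) 4/(4-(ρ-ρ')²)`, both sums over the nontrivial zeros with ordinate in `[0,T]`. -/
noncomputable def formFactor (T α : ℝ) : ℂ :=
  (∑ᶠ ρ ∈ zerosUpTo T, ∑ᶠ ρ' ∈ zerosUpTo T, (mult ρ : ℂ) * (mult ρ' : ℂ) * (T : ℂ) ^ ((α : ℂ) * (ρ - ρ')) *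
    (4 / (4 - (ρ - ρ') ^ 2))) / ((T * Real.log T / (2 * Real.pi) : ℝ) : ℂ)

lemma formFactor_eq (T α : ℝ) : formFactor T α = Pool.Agent.Helper57.KP.bg T α := by
  have h2 : zerosUpTo T = ((Pool.Agent.Helper57.Zeta.Zf T : Finset ℂ) : Set ℂ) := by
    ext ρ
    rw [Finset.mem_coe, Pool.Agent.Helper57.Zeta.mem_Zf]
    rfl
  unfold formFactor Pool.Agent.Helper57.KP.bg
  rw [h2, finsum_mem_coe_finset, div_eq_mul_inv, mul_comm]
  congr 1
  refine Finset.sum_congr rfl fun ρ _ => ?_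
  rw [finsum_mem_coe_finset]
  refine Finset.sum_congr rfl fun ρ' _ => ?_
  ring

/-- The pair correlation form factor beyond 1, without any hypothesis: there is `c > 0` such that for every `ε > 0` and
all large `T`, for all `1 + ε ≤ α ≤ 3/2`, the form factor `F(α,T)` is real and at least `3/2 - α - ε`, and for
`α ≤ 1 + c` it is at least `1/2 + c`. -/
theorem result (hFIN : Pool.Agent.AP.Stmt_FIN) : ∃ c : ℝ, 0 < c ∧ ∀ ε : ℝ, 0 < ε → ∀ᶠ T : ℝ in atTop, ∀ α : ℝ, 1 + ε ≤ α → α ≤ 3 / 2 →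
    (formFactor T α).im = 0 ∧ 3 / 2 - α - ε ≤ (formFactor T α).re ∧
      (α ≤ 1 + c → 1 / 2 + c ≤ (formFactor T α).re) := by
  obtain ⟨c₀, γ, hc0, hγ, hPL⟩ := hFIN
  obtain ⟨c, hc, h⟩ := Pool.Agent.AP.Tile.pointwise2 hPL hc0 hγ
  refine ⟨c, hc, fun ε hε => ?_⟩
  filter_upwards [Pool.Agent.Helper57.KP.pointwise hε, h ε hε] with T hT hT' α h1 h2
  rw [formFactor_eq]
  obtain ⟨h3, h4⟩ := hT α h1 h2
  exact ⟨h3, h4, fun h5 => (hT' α h1 h5).2⟩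

end Pool.Agent.Helper97.Draft.FormFactorBeyondOne2
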