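import Pool.Agent.Helper97.MP.All

/-!
# Almost no locally soluble quadratic twist of a curve has a section

Let `k` be a number field and `X → Y` a double cover of curves over `k`, given by the function field
`K₀` of `Y` and `h ∈ K₀`: `X` is the curve `y² = h`, geometrically irreducible and of genus at least
one.  Its quadratic twists are the curves `y² = c h`, `c ∈ k*/k*²`, ordered by the norm of the
product of the primes `v` of `k` with `v(c)` odd.  The geometric branch points are the points of `Y`
over the algebraic closure of `k` at which the order of `h` is odd.  Assume that there are at least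
five of them, and that for every Galois stable set `J` of at most four of them some element of the
Galois group of `k` fixes a geometric branch point, but none in `J` (for example that all orbits have
at least five elements: `y² = f(x)`, `f` irreducible of even degree at least six).

* For every finite set `S` of primes of `k`, 100 percent of the twists which have points over the
  reals (for all real embeddings) and over `k_v` for `v ∈ S` and for all `v` with `v(c)` odd have no
  section, nor has any curve over `k` which maps onto them.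
* If `Y` is the projective line then 100 percent of the everywhere locally soluble twists, of which
  there are at least `δ X / log X` with norm at most `X`, have no section, nor has any curve over `k`
  which maps onto them; in particular they have no rational point and violate the Hasse principle.
-/

set_option autoImplicit false

namespace Pool.Agent.Results.MP_e66f84_ag.LocallySolubleTwists

open NumberField IsDedekindDomain VC Pool.Agent.Helper91.Sect

/-- `v(c)` is odd: the value of `c` is not the square of the value of an element. -/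
def IsOdd {k : Type} [Field k] [NumberField k] (v : HeightOneSpectrum (𝓞 k)) (c : k) : Prop :=
  ∀ d : k, v.valuation k c ≠ v.valuation k d ^ 2

open scoped Classical in
/-- The norm of the product of the primes `v` of `k` with `v(c)` odd. -/
noncomputable def cond {k : Type} [Field k] [NumberField k] (c : k) : ℕ :=
  ∏ᶠ v : HeightOneSpectrum (𝓞 k), if IsOdd v c then Ideal.absNorm v.asIdeal else 1

/-- The group `k*/k*²`. -/
abbrev Cls (k : Type) [Field k] : Type := kˣ ⧸ (powMonoidHom 2 : kˣ →* kˣ).range

/-- The classes in `k*/k*²` of the elements `c` with `cond c ≤ X` and the property `P`. -/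
def classes {k : Type} [Field k] [NumberField k] (P : k → Prop) (X : ℕ) : Set (Cls k) :=
  {C | ∃ c : kˣ, (c : Cls k) = C ∧ cond (c : k) ≤ X ∧ P c}

/-- The elements of `K₀` and the elements algebraic over `k`, in the algebraic closure of `K₀`: they
generate the function field of `Y` over the algebraic closure of `k`. -/
def base (k K₀ : Type) [Field k] [Field K₀] [Algebra k K₀] : Set (AlgebraicClosure K₀) :=
  {z | IsAlgebraic k z} ∪ Set.range (algebraMap K₀ (AlgebraicClosure K₀))

/-- `K₀/k` is a function field of one variable, and the double cover `y² = h` is irreducible over the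
algebraic closure of `k` and not rational over it. -/
structure IsDoubleCover (k : Type) {K₀ : Type} [Field k] [Field K₀] [Algebra k K₀] (h : K₀) :
    Prop where
  ff : IsFunctionField k K₀
  irr : ∀ r : AlgebraicClosure K₀, r ^ 2 = algebraMap K₀ (AlgebraicClosure K₀) h →
    r ∉ Subfield.closure (base k K₀)
  nonrat : ∀ r : AlgebraicClosure K₀, r ^ 2 = algebraMap K₀ (AlgebraicClosure K₀) h →
    ∀ y : AlgebraicClosure K₀,
      Subfield.closure (base k K₀ ∪ {r}) ≠ Subfield.closure ({z | IsAlgebraic k z} ∪ {y})

/-- A geometric branch point of `y² = h`: a valuation ring `P` of `K₀` containing `k` at which `h`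
has odd value, with a homomorphism over `k` from `P` to the algebraic closure of `k`, that is an
embedding of its residue field. -/
@[ext] structure BranchPoint (k : Type) {K₀ : Type} [Field k] [Field K₀] [Algebra k K₀]
    (h : K₀) where
  P : ValuationSubring K₀
  φ : P →+* AlgebraicClosure k
  const : ∀ a : k, algebraMap k K₀ a ∈ P
  odd : ∀ z : K₀, P.valuation h ≠ P.valuation z ^ 2
  emb : ∀ (a : k) (x : P), (x : K₀) = algebraMap k K₀ a →
    φ x = algebraMap k (AlgebraicClosure k) a

/-- The action of the Galois group on the geometric branch points. -/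
noncomputable def BranchPoint.map {k K₀ : Type} [Field k] [Field K₀] [Algebra k K₀] {h : K₀}
    (b : BranchPoint k h) (σ : AlgebraicClosure k ≃ₐ[k] AlgebraicClosure k) : BranchPoint k h where
  P := b.P
  φ := (σ : AlgebraicClosure k →+* AlgebraicClosure k).comp b.φ
  const := b.const
  odd := b.odd
  emb := fun a x hx => by
    change σ (b.φ x) = _
    rw [b.emb a x hx, σ.commutes]

/-- There are at least five geometric branch points, and for every Galois stable set `J` of at most
four geometric branch points some `σ` fixes a geometric branch point, but none in `J`. -/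
def ManyBranchPoints (k : Type) {K₀ : Type} [Field k] [Field K₀] [Algebra k K₀] (h : K₀) : Prop :=
  5 ≤ Nat.card (BranchPoint k h) ∧
  ∀ J : Set (BranchPoint k h), (∀ σ, ∀ b ∈ J, b.map σ ∈ J) → J.encard ≤ 4 →
    ∃ σ : AlgebraicClosure k ≃ₐ[k] AlgebraicClosure k,
      (∃ b : BranchPoint k h, b.map σ = b) ∧ ∀ b ∈ J, b.map σ ≠ b

/-- Some curve over `k` which maps onto the curve `y² = c h` has a Galois section: there are an
extension `K` of `K₀` and `y ∈ K` with `y² = c h` such that `K/k` has a Galois section (`K` may be
any field; the curve itself is `K = K₀(y)`). -/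
def HasSection {k K₀ : Type} [Field k] [Field K₀] [Algebra k K₀] (h : K₀) (c : k) : Prop :=
  ∃ (K : Type) (_ : Field K) (_ : Algebra k K) (_ : Algebra K₀ K) (_ : IsScalarTower k K₀ K)
    (y : K), y ^ 2 = algebraMap k K c * algebraMap K₀ K h ∧ Nonempty (GaloisSection k K)

/-- The curve over `k` with function field `K` has an `F`-point: there are a valuation ring `P` of `K`
which contains `k` (a point of the curve, the generic one if `P = K`) and a homomorphism `P → F` over
`k`. -/
def HasPoint (k K F : Type) [Field k] [Field K] [Field F] [Algebra k K] [Algebra k F] : Prop :=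
  ∃ (P : ValuationSubring K) (ψ : P →+* F), ∀ a : k, ∃ h : algebraMap k K a ∈ P,
    ψ ⟨algebraMap k K a, h⟩ = algebraMap k F a

/-- The curve `y² = c h`, with function field `K = K₀(y)`, has an `F`-point. -/
def TwistHasPoint {k K₀ : Type} [Field k] [Field K₀] [Algebra k K₀] (h : K₀) (c : k) (F : Type)
    [Field F] [Algebra k F] : Prop :=
  ∃ (K : Type) (_ : Field K) (_ : Algebra k K) (_ : Algebra K₀ K) (_ : IsScalarTower k K₀ K)
    (y : K), y ^ 2 = algebraMap k K c * algebraMap K₀ K h ∧
    IntermediateField.adjoin K₀ {y} = ⊤ ∧ HasPoint k K F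

/-- The curve `y² = c h` has points over the completions `k_v` for `v ∈ S` and for the `v` with `v(c)`
odd, and over the reals for all embeddings of `k` in the reals. -/
def LocallySoluble {k K₀ : Type} [Field k] [NumberField k] [Field K₀] [Algebra k K₀]
    (S : Set (HeightOneSpectrum (𝓞 k))) (h : K₀) (c : k) : Prop :=
  (∀ v : HeightOneSpectrum (𝓞 k), v ∈ S ∨ IsOdd v c → TwistHasPoint h c (v.adicCompletion k)) ∧
  ∀ φ : k →+* ℝ, @TwistHasPoint k K₀ _ _ _ h c ℝ _ φ.toAlgebra

/-- The curve `y² = c h` has points over all completions of `k`. -/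
def EverywhereLocallySoluble {k K₀ : Type} [Field k] [NumberField k] [Field K₀] [Algebra k K₀]
    (h : K₀) (c : k) : Prop :=
  (∀ v : HeightOneSpectrum (𝓞 k), TwistHasPoint h c (v.adicCompletion k)) ∧
  ∀ φ : k →+* ℝ, @TwistHasPoint k K₀ _ _ _ h c ℝ _ φ.toAlgebra

theorem goodCurve {k K₀ : Type} [Field k] [Field K₀] [Algebra k K₀] {h : K₀}
    (H : IsDoubleCover k h) : Pool.Agent.L.GoodCurve k h :=
  ⟨H.ff, H.irr, H.nonrat⟩

/-- the two structures of branch points -/
def toGBr {k K₀ : Type} [Field k] [Field K₀] [Algebra k K₀] {h : K₀} :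
    BranchPoint k h ≃ Pool.Agent.MP.GBr k (AlgebraicClosure k) h where
  toFun b := ⟨b.P, b.φ, b.const, b.odd, b.emb⟩
  invFun b := ⟨b.P, b.φ, b.const, b.odd, b.emb⟩
  left_inv _ := rfl
  right_inv _ := rfl

theorem h4 {k K₀ : Type} [Field k] [Field K₀] [Algebra k K₀] {h : K₀}
    (H : ManyBranchPoints k h) : Pool.Agent.MP.H4 k h := by
  refine ⟨?_, fun J hJ hcard => ?_⟩
  · rw [← Nat.card_congr toGBr]
    exact H.1
  · obtain ⟨σ, ⟨b, hb⟩, h2⟩ := H.2 (toGBr ⁻¹' J) (fun σ b hb => hJ σ (toGBr b) hb) (by
      rw [Set.encard_preimage_of_bijective toGBr.bijective]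
      exact hcard)
    refine ⟨σ, ⟨toGBr b, ?_⟩, fun b' hb' heq => ?_⟩
    · exact congrArg toGBr hb
    · refine h2 (toGBr.symm b') ?_ ?_
      · rw [Set.mem_preimage, Equiv.apply_symm_apply]
        exact hb'
      · apply toGBr.injective
        rw [Equiv.apply_symm_apply]
        exact heq

theorem result {k K₀ : Type} [Field k] [NumberField k] [Field K₀] [Algebra k K₀] (h : K₀)
    (H : IsDoubleCover k h) (HB : ManyBranchPoints k h) :
    (∀ X : ℕ, (classes (fun _ : k => True) X).Finite) ∧
    -- a rational point gives a section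
    (∀ c : k, TwistHasPoint h c k → HasSection h c) ∧
    ∃ η : ℝ, 0 < η ∧
      -- the twists soluble at the primes in `S` and at the primes which divide them
      (∀ S : Set (HeightOneSpectrum (𝓞 k)), S.Finite → ∃ C : ℝ, 0 < C ∧ ∀ X : ℕ, 3 ≤ X →
        (Nat.card (classes (fun c : k => LocallySoluble S h c ∧ HasSection h c) X) : ℝ) ≤
          C * Nat.card (classes (fun c : k => LocallySoluble S h c) X) / Real.log X ^ η) ∧
      -- the everywhere locally soluble twists, for `Y` the projective line
      ((∃ x : K₀, IntermediateField.adjoin k {x} = ⊤) →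
        (∃ C : ℝ, 0 < C ∧ ∀ X : ℕ, 3 ≤ X →
          (Nat.card (classes (fun c : k => EverywhereLocallySoluble h c ∧ HasSection h c) X) : ℝ) ≤
            C * Nat.card (classes (fun c : k => EverywhereLocallySoluble h c) X) /
              Real.log X ^ η) ∧
        ∃ (δ : ℝ) (X₀ : ℕ), 0 < δ ∧ ∀ X : ℕ, X₀ ≤ X → δ * X / Real.log X ≤
          Nat.card (classes (fun c : k => EverywhereLocallySoluble h c) X)) := by
  have hG := goodCurve H
  have hH4 := h4 HB
  have hcls : ∀ (P : k → Prop) (X : ℕ), classes P X =
      Pool.Agent.MP.clsU (fun c : kˣ => P c) X := fun _ _ => rfl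
  refine ⟨fun X => Pool.Agent.MP.clsU_finite Pool.Agent.HG.sel (fun _ => True) X,
    fun c hc => Pool.Agent.MPF.hasSec_of_point hc, ?_⟩
  obtain ⟨η, hη, hrat⟩ := Pool.Agent.MPF.ratio_of Pool.Agent.MPF.abs_all Pool.Agent.MPF.l1
    Pool.Agent.MPF.l2 Pool.Agent.MPF.l4_all hG hH4
  refine ⟨η, hη, hrat, fun ⟨x, hgen⟩ => ?_⟩
  obtain ⟨⟨S, hS, hELS⟩, c₀, hc₀, hsec⟩ := Pool.Agent.MPF.p1_els Pool.Agent.MPF.lp hG hgen
  have e1 : ∀ X : ℕ, classes (fun c : k => EverywhereLocallySoluble h c) X =
      classes (fun c : k => LocallySoluble S h c) X := by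
    intro X
    ext C
    exact ⟨fun ⟨c, h1, h2, h3⟩ => ⟨c, h1, h2, (hELS c c.ne_zero).1 h3⟩,
      fun ⟨c, h1, h2, h3⟩ => ⟨c, h1, h2, (hELS c c.ne_zero).2 h3⟩⟩
  have e2 : ∀ X : ℕ, classes (fun c : k => EverywhereLocallySoluble h c ∧ HasSection h c) X =
      classes (fun c : k => LocallySoluble S h c ∧ HasSection h c) X := by
    intro X
    ext C
    exact ⟨fun ⟨c, h1, h2, h3, h4⟩ => ⟨c, h1, h2, (hELS c c.ne_zero).1 h3, h4⟩,
      fun ⟨c, h1, h2, h3, h4⟩ => ⟨c, h1, h2, (hELS c c.ne_zero).2 h3, h4⟩⟩
  constructor
  · obtain ⟨C, hC, h1⟩ := hrat S hS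
    refine ⟨C, hC, fun X hX => ?_⟩
    rw [e1, e2]
    exact h1 X hX
  · rcases Pool.Agent.MPF.locSol_bounds Pool.Agent.MPF.abs_all Pool.Agent.MPF.l1
      Pool.Agent.MPF.l2 Pool.Agent.MPF.l4_all hG hH4 with h0 | ⟨κ, η', C, hκ, -, -, -, hlow⟩
    · exact absurd hsec (h0 c₀ c₀.ne_zero)
    · obtain ⟨δ, X₀, hδ, h1⟩ := hlow S hS c₀ ((hELS c₀ c₀.ne_zero).1 hc₀)
      refine ⟨δ, max X₀ 3, hδ, fun X hX => ?_⟩
      rw [e1]
      refine le_trans ?_ (h1 X ((le_max_left _ _).trans hX))
      have hX3 : 3 ≤ X := (le_max_right _ _).trans hX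
      have hX3' : (3 : ℝ) ≤ X := by exact_mod_cast hX3
      have hlog1 : 1 ≤ Real.log X := by
        rw [Real.le_log_iff_exp_le (by linarith)]
        exact Real.exp_one_lt_three.le.trans hX3'
      rw [mul_div_assoc]
      refine mul_le_mul_of_nonneg_left ?_ hδ.le
      rw [div_eq_mul_inv, ← Real.rpow_neg_one]
      refine mul_le_mul_of_nonneg_left ?_ (by linarith)
      exact Real.rpow_le_rpow_of_exponent_le hlog1 (by linarith)

end Pool.Agent.Results.MP_e66f84_ag.LocallySolubleTwists
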