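import Pool.Agent.Helper97.TW.All

/-!
# Sections of almost all quadratic twists of an odd degree hyperelliptic curve

Let `k` be a number field and `f ∈ k[x]` irreducible of odd degree at least `5`.  The twists
`y² = c f(x)`, `c ∈ k*/k*²`, of the curve `y² = f(x)` are ordered by the norm of the product of the
primes `v` of `k` with `v(c)` odd.  Every twist has the rational point at infinity, and its section.

**Theorem.**  For every `n`, for 100 percent of the `c`, every Galois section of `y² = c f(x)`, and
of every curve over `k` which maps onto it, agrees modulo `2ⁿ` with the section of the point at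
infinity: it fixes a place above infinity of the maximal abelian unramified extension of exponent
`2ⁿ` of the function field `kbar(x, y)`.

(The stabiliser of such a place in the Galois group of that extension over `k(x, y)` is the image of
the section of the point at infinity.)
-/

set_option autoImplicit false

namespace Pool.Agent.Results.MP_e66f84_ag.OddDegreeTwists

open Polynomial NumberField IsDedekindDomain Filter Topology Pool.Agent.Helper91.Sect

/-- `v(c)` is odd: the value of `c` is not the square of the value of an element. -/
def IsOdd {k : Type} [Field k] [NumberField k] (v : HeightOneSpectrum (𝓞 k)) (c : k) : Prop :=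
  ∀ d : k, v.valuation k c ≠ v.valuation k d ^ 2

open scoped Classical in
/-- The norm of the product of the primes `v` of `k` with `v(c)` odd. -/
noncomputable def cond {k : Type} [Field k] [NumberField k] (c : k) : ℕ :=
  ∏ᶠ v : HeightOneSpectrum (𝓞 k), if IsOdd v c then Ideal.absNorm v.asIdeal else 1

/-- The group `k*/k*²`. -/
abbrev Cls (k : Type) [Field k] : Type := kˣ ⧸ (powMonoidHom 2 : kˣ →* kˣ).range

/-- The classes `c ∈ k*/k*²` with `cond c ≤ X`. -/
def twists (k : Type) [Field k] [NumberField k] (X : ℕ) : Set (Cls k) :=
  {C | ∃ c : kˣ, (c : Cls k) = C ∧ cond (c : k) ≤ X}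

/-- The field `kbar(x, y)`, in the algebraic closure of `K`. -/
noncomputable def Xbar (k : Type) {K : Type} [Field k] [Field K] [Algebra k K] (x y : K) :
    Subfield (AlgebraicClosure K) :=
  Subfield.closure ({z | IsAlgebraic k z} ∪
    {algebraMap K (AlgebraicClosure K) x, algebraMap K (AlgebraicClosure K) y})

/-- `w` is an `m`-th root of an element `u` of `kbar(x, y)` whose divisor is divisible by `m`: at
every valuation ring `P` of `kbar(x, y)` which contains the constants, the value of `u` is an `m`-th
power of a value. -/
def IsUnramifiedRoot (k : Type) {K : Type} [Field k] [Field K] [Algebra k K] (x y : K) (m : ℕ)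
    (w : AlgebraicClosure K) : Prop :=
  ∃ u : Xbar k x y, (u : AlgebraicClosure K) = w ^ m ∧ ∀ P : ValuationSubring (Xbar k x y),
    (∀ z : Xbar k x y, IsAlgebraic k (z : AlgebraicClosure K) → z ∈ P) →
    ∃ z : Xbar k x y, P.valuation u = P.valuation z ^ m

/-- The maximal abelian unramified extension of exponent `m` of `kbar(x, y)`. -/
noncomputable def Level (k : Type) {K : Type} [Field k] [Field K] [Algebra k K] (x y : K) (m : ℕ) :
    Subfield (AlgebraicClosure K) :=
  Subfield.closure ({z | IsAlgebraic k z} ∪
    {algebraMap K (AlgebraicClosure K) x, algebraMap K (AlgebraicClosure K) y} ∪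
    {w | IsUnramifiedRoot k x y m w})

/-- The section `s` of `K ∋ x, y` agrees modulo `m` with the point at infinity of the curve with
function field `k(x, y)`: it fixes a place above infinity of `Level k x y m`.  There is a valuation
ring `Q` of the algebraic closure of `K` which contains the constants and not `x`, and
`Level k x y m` is contained in `Kur k K` and all `s(g)` map `Q ∩ Level k x y m` to itself. -/
def AgreesInf {k K : Type} [Field k] [Field K] [Algebra k K] (s : GaloisSection k K) (x y : K)
    (m : ℕ) : Prop :=
  ∃ Q : ValuationSubring (AlgebraicClosure K), (∀ z, IsAlgebraic k z → z ∈ Q) ∧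
    algebraMap K (AlgebraicClosure K) x ∉ Q ∧
    ∀ w ∈ Level k x y m, ∃ hw : w ∈ Kur k K, ∀ g : Gk k K,
      (w ∈ Q ↔ (s.toHom g ⟨w, hw⟩ : AlgebraicClosure K) ∈ Q)

/-- The classes `c` with `cond c ≤ X` for which some curve over `k` which maps onto `y² = c f(x)` has
a section which does not agree modulo `m` with the point at infinity: there are an extension `K` of
`k` and `x, y ∈ K` with `x` transcendental and `y² = c f(x)`, and such a section of `K/k` (`K` may be
any field; the curve itself is `K = k(x, y)`). -/
def twistsWithOtherSection {k : Type} [Field k] [NumberField k] (f : k[X]) (m X : ℕ) :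
    Set (Cls k) :=
  {C | ∃ c : kˣ, (c : Cls k) = C ∧ cond (c : k) ≤ X ∧
    ∃ (K : Type) (_ : Field K) (_ : Algebra k K) (x y : K), Transcendental k x ∧
      y ^ 2 = algebraMap k K c * aeval x f ∧ ∃ s : GaloisSection k K, ¬ AgreesInf s x y m}

theorem result {k : Type} [Field k] [NumberField k] (f : k[X]) (hirr : Irreducible f)
    (hodd : Odd f.natDegree) (hdeg : 5 ≤ f.natDegree) :
    (∀ X : ℕ, (twists k X).Finite) ∧
    -- every twist has a section which agrees with the point at infinity modulo all numbers
    (∀ c : k, c ≠ 0 → ∃ (K : Type) (_ : Field K) (_ : Algebra k K) (x y : K),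
      Transcendental k x ∧ y ^ 2 = algebraMap k K c * aeval x f ∧
      IntermediateField.adjoin k {x, y} = ⊤ ∧
      ∃ s : GaloisSection k K, ∀ m : ℕ, 0 < m → AgreesInf s x y m) ∧
    -- 100 percent of the twists, and the curves above them, have no other section modulo `2 ^ n`
    ∀ n : ℕ, Tendsto (fun X : ℕ => (Nat.card (twistsWithOtherSection f (2 ^ n) X) : ℝ) /
      Nat.card (twists k X)) atTop (𝓝 0) := by
  refine ⟨Pool.Agent.HG.clsLE_finite Pool.Agent.HG.sel,
    fun c hc => Pool.Agent.TW.exists_agr97 Pool.Agent.TW.gC hirr hodd hdeg hc, fun n => ?_⟩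
  exact Pool.Agent.HG.ratioP Pool.Agent.HG.sel k (Pool.Agent.TW.Oth f (2 ^ n))
    (Pool.Agent.TW.fin k f hirr hodd hdeg n)

end Pool.Agent.Results.MP_e66f84_ag.OddDegreeTwists
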