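import Pool.Agent.Helper97.TW.AllS

/-!
# Sections and points of almost all quadratic twists of an odd degree hyperelliptic curve

Let `k` be a number field and `f ∈ k[x]` separable of odd degree at least `5`, without root in `k`.
The twists `y² = c f(x)`, `c ∈ k*/k*²`, of the curve `y² = f(x)` are ordered by the norm of the
product of the primes `v` of `k` with `v(c)` odd.  Every twist has the rational point at infinity,
and its section; it is the only rational Weierstrass point.

**Theorem.**  For 100 percent of the `c`, every Galois section of `y² = c f(x)`, and of every curve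
over `k` which maps onto it, agrees modulo `2` with the section of the point at infinity: it fixes a
place above infinity of the maximal abelian unramified extension of exponent `2` of the function
field `kbar(x, y)`.  If `f` is irreducible then the same holds modulo `2ⁿ`, for every `n`.

(The stabiliser of such a place in the Galois group of that extension over `k(x, y)` is the image of
the section of the point at infinity.)

**Rational points.**  For 100 percent of the `c` all rational points `(x₀, y₀)` of the twist satisfy
`x₀ - x = t p(x)² mod f(x)` for some `t ∈ k`, `p ∈ k[x]`.  This condition does not depend on `c`: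
such `x₀` come from the `k`-points of one curve, the intersection of `deg f - 2` quadrics, which is
of genus at least `5`, so there are finitely many by the theorem of Faltings; and then 100 percent of
the twists have no rational point except the point at infinity.
-/

set_option autoImplicit false

namespace Pool.Agent.Results.MP_e66f84_ag.OddDegreeTwists

open Polynomial NumberField IsDedekindDomain Filter Topology Pool.Agent.Helper91.Sect

/-- `v(c)` is odd: the value of `c` is not the square of the value of an element. -/
def IsOdd {k : Type} [Field k] [NumberField k] (v : HeightOneSpectrum (𝓞 k)) (c : k) : Prop :=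
  ∀ d : k, v.valuation k c ≠ v.valuation k d ^ 2

open scoped Classical in
/-- The norm of the product of the primes `v` of `k` with `v(c)` odd. -/
noncomputable def cond {k : Type} [Field k] [NumberField k] (c : k) : ℕ :=
  ∏ᶠ v : HeightOneSpectrum (𝓞 k), if IsOdd v c then Ideal.absNorm v.asIdeal else 1

/-- The group `k*/k*²`. -/
abbrev Cls (k : Type) [Field k] : Type := kˣ ⧸ (powMonoidHom 2 : kˣ →* kˣ).range

/-- The classes in `k*/k*²` of the elements `c` with `cond c ≤ X` and the property `P`. -/
def classes {k : Type} [Field k] [NumberField k] (P : k → Prop) (X : ℕ) : Set (Cls k) :=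
  {C | ∃ c : kˣ, (c : Cls k) = C ∧ cond (c : k) ≤ X ∧ P c}

/-- Zero percent of the classes `c` have the property `P`. -/
def ZeroPercent {k : Type} [Field k] [NumberField k] (P : k → Prop) : Prop :=
  Tendsto (fun X : ℕ => (Nat.card (classes P X) : ℝ) /
    Nat.card (classes (fun _ : k => True) X)) atTop (𝓝 0)

/-- The field `kbar(x, y)`, in the algebraic closure of `K`. -/
noncomputable def Xbar (k : Type) {K : Type} [Field k] [Field K] [Algebra k K] (x y : K) :
    Subfield (AlgebraicClosure K) :=
  Subfield.closure ({z | IsAlgebraic k z} ∪
    {algebraMap K (AlgebraicClosure K) x, algebraMap K (AlgebraicClosure K) y})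

/-- `w` is an `m`-th root of an element `u` of `kbar(x, y)` whose divisor is divisible by `m`: at
every valuation ring `P` of `kbar(x, y)` which contains the constants, the value of `u` is an `m`-th
power of a value. -/
def IsUnramifiedRoot (k : Type) {K : Type} [Field k] [Field K] [Algebra k K] (x y : K) (m : ℕ)
    (w : AlgebraicClosure K) : Prop :=
  ∃ u : Xbar k x y, (u : AlgebraicClosure K) = w ^ m ∧ ∀ P : ValuationSubring (Xbar k x y),
    (∀ z : Xbar k x y, IsAlgebraic k (z : AlgebraicClosure K) → z ∈ P) →
    ∃ z : Xbar k x y, P.valuation u = P.valuation z ^ m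

/-- The maximal abelian unramified extension of exponent `m` of `kbar(x, y)`. -/
noncomputable def Level (k : Type) {K : Type} [Field k] [Field K] [Algebra k K] (x y : K) (m : ℕ) :
    Subfield (AlgebraicClosure K) :=
  Subfield.closure ({z | IsAlgebraic k z} ∪
    {algebraMap K (AlgebraicClosure K) x, algebraMap K (AlgebraicClosure K) y} ∪
    {w | IsUnramifiedRoot k x y m w})

/-- The section `s` of `K ∋ x, y` agrees modulo `m` with the point at infinity of the curve with
function field `k(x, y)`: it fixes a place above infinity of `Level k x y m`.  There is a valuation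
ring `Q` of the algebraic closure of `K` which contains the constants and not `x`, and
`Level k x y m` is contained in `Kur k K` and all `s(g)` map `Q ∩ Level k x y m` to itself. -/
def AgreesInf {k K : Type} [Field k] [Field K] [Algebra k K] (s : GaloisSection k K) (x y : K)
    (m : ℕ) : Prop :=
  ∃ Q : ValuationSubring (AlgebraicClosure K), (∀ z, IsAlgebraic k z → z ∈ Q) ∧
    algebraMap K (AlgebraicClosure K) x ∉ Q ∧
    ∀ w ∈ Level k x y m, ∃ hw : w ∈ Kur k K, ∀ g : Gk k K,
      (w ∈ Q ↔ (s.toHom g ⟨w, hw⟩ : AlgebraicClosure K) ∈ Q)

/-- Some curve over `k` which maps onto `y² = c f(x)` has a section which does not agree modulo `m`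
with the point at infinity: there are an extension `K` of `k` and `x, y ∈ K` with `x` transcendental
and `y² = c f(x)`, and such a section of `K/k` (`K` may be any field; the curve itself is
`K = k(x, y)`). -/
def HasOtherSection {k : Type} [Field k] (f : k[X]) (m : ℕ) (c : k) : Prop :=
  ∃ (K : Type) (_ : Field K) (_ : Algebra k K) (x y : K), Transcendental k x ∧
    y ^ 2 = algebraMap k K c * aeval x f ∧ ∃ s : GaloisSection k K, ¬ AgreesInf s x y m

/-- `x₀ - x = t p(x)² mod f(x)` for some `t ∈ k` and `p ∈ k[x]`. -/
def OnFixedCurve {k : Type} [Field k] (f : k[X]) (x₀ : k) : Prop :=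
  ∃ (t : k) (z : AdjoinRoot f), algebraMap k (AdjoinRoot f) x₀ - AdjoinRoot.root f =
    algebraMap k (AdjoinRoot f) t * z ^ 2

theorem result {k : Type} [Field k] [NumberField k] (f : k[X]) (hsep : f.Separable)
    (hodd : Odd f.natDegree) (hdeg : 5 ≤ f.natDegree) (hroot : ∀ a : k, eval a f ≠ 0) :
    (∀ X : ℕ, (classes (fun _ : k => True) X).Finite) ∧
    -- every twist has a section which agrees with the point at infinity modulo all numbers
    (∀ c : k, c ≠ 0 → ∃ (K : Type) (_ : Field K) (_ : Algebra k K) (x y : K),
      Transcendental k x ∧ y ^ 2 = algebraMap k K c * aeval x f ∧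
      IntermediateField.adjoin k {x, y} = ⊤ ∧
      ∃ s : GaloisSection k K, ∀ m : ℕ, 0 < m → AgreesInf s x y m) ∧
    -- 100 percent of the twists, and the curves above them, have no other section modulo `2`
    ZeroPercent (HasOtherSection f 2) ∧
    -- and none modulo `2 ^ n` if `f` is irreducible
    (Irreducible f → ∀ n : ℕ, ZeroPercent (HasOtherSection f (2 ^ n))) ∧
    -- the rational points of 100 percent of the twists come from one fixed curve
    ZeroPercent (fun c : k => ∃ x₀ y₀ : k, y₀ ^ 2 = c * eval x₀ f ∧ ¬ OnFixedCurve f x₀) ∧
    -- and if it has finitely many points (Faltings) then there are no rational points but infinity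
    ({x₀ : k | OnFixedCurve f x₀}.Finite →
      ZeroPercent (fun c : k => ∃ x₀ y₀ : k, y₀ ^ 2 = c * eval x₀ f)) := by
  have hone := Pool.Agent.TW.finS k f hsep hodd hdeg hroot
  have key : ∀ P : k → Prop, Pool.Agent.TW.Rare P → ZeroPercent P := by
    intro P hP
    have h1 := Pool.Agent.HG.ratioP Pool.Agent.HG.sel k P hP
    have e1 : ∀ X : ℕ, classes (fun _ : k => True) X = Pool.Agent.HG.clsLE k X := fun X =>
      Set.ext fun C => ⟨fun ⟨c, h1, h2, _⟩ => ⟨c, h1, h2⟩, fun ⟨c, h1, h2⟩ => ⟨c, h1, h2, trivial⟩⟩
    unfold ZeroPercent
    simp only [e1]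
    exact h1
  refine ⟨fun X => ?_, fun c hc => Pool.Agent.TOWS.exists_agrS Pool.Agent.TW.gC hsep hodd hdeg hc,
    key _ hone, fun hirr n => key _ (Pool.Agent.TW.fin k f hirr hodd hdeg n),
    key _ (Pool.Agent.TW37.rare_ptsS hsep hodd hroot hone),
    fun hF => key _ (Pool.Agent.TW37.rare_anyS hsep hodd hroot hone hF)⟩
  refine (Pool.Agent.HG.clsLE_finite (k := k) Pool.Agent.HG.sel X).subset ?_
  rintro C ⟨c, h1, h2, _⟩
  exact ⟨c, h1, h2⟩

end Pool.Agent.Results.MP_e66f84_ag.OddDegreeTwists
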