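import Pool.Agent.Helper97.PD.All

/-!
# Sections and points of almost all twists of a cyclic cover of prime degree of the line

Let `ℓ` be a prime, `k` a number field which contains the `ℓ`-th roots of unity, `f ∈ k[x]`.  The
twists `y ^ ℓ = c f(x)`, `c ∈ k* / k* ^ ℓ`, of the curve `y ^ ℓ = f(x)` are ordered by the norm of the
product of the primes `v` of `k` with `ℓ ∤ v(c)`.  The branch points are the roots of `f` in an
algebraic closure of multiplicity prime to `ℓ`, and infinity, if the degree of `f` is prime to `ℓ`.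
Above a rational branch point there is exactly one point of the twist, it is rational.

We assume `Nondegenerate ℓ f`: there are `n ≥ 3` branch points, `n ≥ 4` if `ℓ = 3`, `n ≥ 5` if `ℓ = 2`
(the genus is at least two); for any two rational branch points there is a third closed branch point
of degree prime to `ℓ` over `k`; and, if `ℓ = 2`, for any two rational branch points `a`, `b` there
are two other branch points `p`, `q` such that the cross ratio of `a`, `b`, `p`, `q` is not a square
in `k(p, q)`.

**Theorem.**  For 100 percent of the `c`, every Galois section of `y ^ ℓ = c f(x)`, and of every curve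
over `k` which maps onto it, agrees modulo `1 - ζ` with the section of a rational branch point `P`: it
fixes a place above `P` of the maximal abelian extension of exponent `ℓ` of `kbar(x)` which is
unramified over `kbar(x, y)`.  (So 100 percent have no section if no branch point is rational.)
If `ℓ = 2` and `f` is irreducible of odd degree at least `5` then the same holds modulo `2ⁿ` for every
`n`: for the maximal abelian unramified extension of exponent `2ⁿ` of `kbar(x, y)`.

**Rational points.**  For 100 percent of the `c` all `x₀, y₀ ∈ k` with `y₀ ^ ℓ = c f(x₀)`, `y₀ ≠ 0`,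
satisfy `OnFixedCurve ℓ f x₀`: for some rational branch point `P` and some `t ∈ k`, for all branch
points `p ≠ P`, `x₀ - p = t z ^ ℓ (P - p)` with `z ∈ k(p)` (differences with infinity are `1`).  This
condition does not depend on `c`: such `x₀` come from the `k`-points of finitely many curves, one for
each `P`, of genus at least two if `(n - 1)(ℓ - 1) > 2 ℓ`; then there are finitely many by the
theorem of Faltings, and 100 percent of the equations `y ^ ℓ = c f(x)` have no solution `x, y ∈ k`
with `y ≠ 0`.
-/

set_option autoImplicit false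

namespace Pool.Agent.Results.MP_e66f84_ag.PrimeDegreeTwists

open Polynomial NumberField IsDedekindDomain Filter Topology Pool.Agent.Helper91.Sect

noncomputable section

/-! ## The classes of `k* / k* ^ ℓ` -/

/-- `ℓ ∤ v(c)`: the value of `c` is not the `ℓ`-th power of the value of an element. -/
def IsRam {k : Type} [Field k] [NumberField k] (ℓ : ℕ) (v : HeightOneSpectrum (𝓞 k)) (c : k) :
    Prop :=
  ∀ d : k, v.valuation k c ≠ v.valuation k d ^ ℓ

open scoped Classical in
/-- The norm of the product of the primes `v` of `k` with `ℓ ∤ v(c)`. -/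
def cond {k : Type} [Field k] [NumberField k] (ℓ : ℕ) (c : k) : ℕ :=
  ∏ᶠ v : HeightOneSpectrum (𝓞 k), if IsRam ℓ v c then Ideal.absNorm v.asIdeal else 1

/-- The group `k* / k* ^ ℓ`. -/
abbrev Cls (k : Type) [Field k] (ℓ : ℕ) : Type := kˣ ⧸ (powMonoidHom ℓ : kˣ →* kˣ).range

/-- The classes in `k* / k* ^ ℓ` of the elements `c` with `cond ℓ c ≤ X` and the property `P`. -/
def classes {k : Type} [Field k] [NumberField k] (ℓ : ℕ) (P : k → Prop) (X : ℕ) :
    Set (Cls k ℓ) :=
  {C | ∃ c : kˣ, (c : Cls k ℓ) = C ∧ cond ℓ (c : k) ≤ X ∧ P c}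

/-- Zero percent of the classes `c` have the property `P`. -/
def ZeroPercent {k : Type} [Field k] [NumberField k] (ℓ : ℕ) (P : k → Prop) : Prop :=
  Tendsto (fun X : ℕ => (Nat.card (classes ℓ P X) : ℝ) /
    Nat.card (classes ℓ (fun _ : k => True) X)) atTop (𝓝 0)

/-! ## The branch points -/

/-- The point `p` of the projective line (`none` is infinity) is a branch point of
`y ^ ℓ = f(x)`. -/
def IsBranchPoint {k E : Type} [Field k] [Field E] [Algebra k E] (ℓ : ℕ) (f : k[X]) :
    Option E → Prop
  | none => ¬ ℓ ∣ f.natDegree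
  | some e => ¬ ℓ ∣ (f.map (algebraMap k E)).rootMultiplicity e

/-- The degree over `k` of a point of the projective line. -/
def deg (k : Type) {E : Type} [Field k] [Field E] [Algebra k E] : Option E → ℕ
  | none => 1
  | some e => (minpoly k e).natDegree

/-- The difference of two points, `1` if one of them is infinity. -/
def diff {E : Type} [Field E] : Option E → Option E → E
  | some p, some q => p - q
  | _, _ => 1

/-- The field generated by two points. -/
def adjoinPts (k : Type) {E : Type} [Field k] [Field E] [Algebra k E] (p q : Option E) :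
    IntermediateField k E :=
  IntermediateField.adjoin k {e : E | p = some e ∨ q = some e}

/-- The point `a` of the projective line over `k`, as a point over the algebraic closure. -/
abbrev pt {k : Type} [Field k] (a : Option k) : Option (AlgebraicClosure k) :=
  a.map (algebraMap k (AlgebraicClosure k))

/-- There are enough branch points; for any two rational branch points there is a third closed
branch point of degree prime to `ℓ`, and if `ℓ = 2` there are two other branch points `p ≠ q` such
that the cross ratio is not a square in `k(p, q)`. -/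
structure Nondegenerate {k : Type} [Field k] (ℓ : ℕ) (f : k[X]) : Prop where
  three : 3 ≤ Nat.card {p : Option (AlgebraicClosure k) // IsBranchPoint ℓ f p}
  four : ℓ = 3 → 4 ≤ Nat.card {p : Option (AlgebraicClosure k) // IsBranchPoint ℓ f p}
  five : ℓ = 2 → 5 ≤ Nat.card {p : Option (AlgebraicClosure k) // IsBranchPoint ℓ f p}
  third : ∀ a b : Option k, a ≠ b → IsBranchPoint ℓ f (pt a) → IsBranchPoint ℓ f (pt b) →
    ∃ p : Option (AlgebraicClosure k), IsBranchPoint ℓ f p ∧ p ≠ pt a ∧ p ≠ pt b ∧
      ¬ ℓ ∣ deg k p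
  cross : ℓ = 2 → ∀ a b : Option k, a ≠ b → IsBranchPoint ℓ f (pt a) →
    IsBranchPoint ℓ f (pt b) → ∃ p q : Option (AlgebraicClosure k), IsBranchPoint ℓ f p ∧
      IsBranchPoint ℓ f q ∧ p ≠ q ∧ p ≠ pt a ∧ p ≠ pt b ∧ q ≠ pt a ∧ q ≠ pt b ∧
      ∀ z ∈ adjoinPts k p q,
        z ^ 2 ≠ diff p (pt a) * diff p (pt b) * (diff q (pt a) * diff q (pt b))

/-! ## The levels -/

section levels

variable (k : Type) {K : Type} [Field k] [Field K] [Algebra k K]

/-- The field generated by the constants and the image of a subset of `K`, in the algebraic closure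
of `K`. -/
def geomField (S : Set K) : Subfield (AlgebraicClosure K) :=
  Subfield.closure ({z | IsAlgebraic k z} ∪ algebraMap K (AlgebraicClosure K) '' S)

/-- `w ^ m` is an element `u` of the field `A`, and of `kbar(x, y)`, where its divisor is divisible by
`m`: at every valuation ring `P` of `kbar(x, y)` which contains the constants, the value of `u` is an
`m`-th power of a value. -/
def IsUnramifiedRoot (A : Subfield (AlgebraicClosure K)) (x y : K) (m : ℕ)
    (w : AlgebraicClosure K) : Prop :=
  ∃ u : geomField k {x, y}, (u : AlgebraicClosure K) = w ^ m ∧ (u : AlgebraicClosure K) ∈ A ∧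
    ∀ P : ValuationSubring (geomField k {x, y}),
      (∀ z : geomField k {x, y}, IsAlgebraic k (z : AlgebraicClosure K) → z ∈ P) →
      ∃ z : geomField k {x, y}, P.valuation u = P.valuation z ^ m

/-- The field generated over `kbar(x, y)` by all these roots.  For `A = kbar(x)`: the maximal abelian
extension of exponent `m` of `kbar(x)`, unramified over `kbar(x, y)` (if `y ^ m ∈ kbar(x)`); for
`A = kbar(x, y)`: the maximal abelian unramified extension of exponent `m` of `kbar(x, y)`. -/
def Level (A : Subfield (AlgebraicClosure K)) (x y : K) (m : ℕ) :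
    Subfield (AlgebraicClosure K) :=
  Subfield.closure ({z | IsAlgebraic k z} ∪
    {algebraMap K (AlgebraicClosure K) x, algebraMap K (AlgebraicClosure K) y} ∪
    {w | IsUnramifiedRoot k A x y m w})

end levels

/-- The section `s` fixes a place of the field `M` at which `u ∈ K` has a pole: there is a valuation
ring `Q` of the algebraic closure of `K` which contains the constants and not `u`, and `M` is
contained in `Kur k K` and all `s(g)` map `Q ∩ M` to itself. -/
def FixesPole {k K : Type} [Field k] [Field K] [Algebra k K] (s : GaloisSection k K)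
    (M : Subfield (AlgebraicClosure K)) (u : K) : Prop :=
  ∃ Q : ValuationSubring (AlgebraicClosure K), (∀ z, IsAlgebraic k z → z ∈ Q) ∧
    algebraMap K (AlgebraicClosure K) u ∉ Q ∧
    ∀ w ∈ M, ∃ hw : w ∈ Kur k K, ∀ g : Gk k K,
      (w ∈ Q ↔ (s.toHom g ⟨w, hw⟩ : AlgebraicClosure K) ∈ Q)

/-- The section `s` of `K ∋ x, y` agrees, on the level `(A, m)`, with the rational point `a` of the
line: it fixes a place above `x = a` of the level. -/
def Agrees {k K : Type} [Field k] [Field K] [Algebra k K] (s : GaloisSection k K)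
    (A : Subfield (AlgebraicClosure K)) (x y : K) (m : ℕ) : Option k → Prop
  | none => FixesPole s (Level k A x y m) x
  | some a => FixesPole s (Level k A x y m) (x - algebraMap k K a)⁻¹

/-- Some curve over `k` which maps onto `y ^ ℓ = c f(x)` has a section which agrees modulo `1 - ζ`
with no rational branch point: there are an extension `K` of `k` and `x, y ∈ K` with `x`
transcendental and `y ^ ℓ = c f(x)`, and such a section of `K/k` (`K` may be any field; the curve
itself is `K = k(x, y)`). -/
def HasOtherSection {k : Type} [Field k] (ℓ : ℕ) (f : k[X]) (c : k) : Prop :=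
  ∃ (K : Type) (_ : Field K) (_ : Algebra k K) (x y : K), Transcendental k x ∧
    y ^ ℓ = algebraMap k K c * aeval x f ∧ ∃ s : GaloisSection k K,
      ∀ a : Option k, IsBranchPoint ℓ f (pt a) → ¬ Agrees s (geomField k {x}) x y ℓ a

/-- Some curve over `k` which maps onto `y ² = c f(x)` has a section which does not agree modulo `m`
with the point at infinity. -/
def HasOtherSectionMod {k : Type} [Field k] (f : k[X]) (m : ℕ) (c : k) : Prop :=
  ∃ (K : Type) (_ : Field K) (_ : Algebra k K) (x y : K), Transcendental k x ∧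
    y ^ 2 = algebraMap k K c * aeval x f ∧ ∃ s : GaloisSection k K,
      ¬ Agrees s (geomField k {x, y}) x y m none

/-- For some rational branch point `P` and some `t ∈ k`, for all branch points `p ≠ P`:
`x₀ - p = t z ^ ℓ (P - p)` with `z ∈ k(p)` (differences with infinity are `1`). -/
def OnFixedCurve {k : Type} [Field k] (ℓ : ℕ) (f : k[X]) (x₀ : k) : Prop :=
  ∃ P : Option k, IsBranchPoint ℓ f (pt P) ∧ ∃ t : k, ∀ p : Option (AlgebraicClosure k),
    IsBranchPoint ℓ f p → p ≠ pt P → ∃ z ∈ adjoinPts k p p,
      diff (pt (some x₀)) p = algebraMap k (AlgebraicClosure k) t * z ^ ℓ * diff (pt P) p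

/-! ## The translation to the project files -/

section bridge

open Pool.Agent

theorem isBranchPoint_iff {k E : Type} [Field k] [Field E] [Algebra k E] (ℓ : ℕ) (f : k[X])
    (p : Option E) : IsBranchPoint ℓ f p ↔ PDL.BrP ℓ f p := by
  cases p <;> exact Iff.rfl

theorem diff_eq {E : Type} [Field E] (p q : Option E) : diff p q = PDL.dif p q := by
  cases p <;> cases q <;> rfl

theorem card_branch {k : Type} [Field k] (ℓ : ℕ) (f : k[X]) :
    Nat.card {p : Option (AlgebraicClosure k) // IsBranchPoint ℓ f p} =
      PDL.numBr k (AlgebraicClosure k) ℓ f := by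
  rw [← PDL.card_brP]
  exact Nat.card_congr (Equiv.subtypeEquivRight fun p => isBranchPoint_iff ℓ f p)

theorem mult_map {k : Type} [Field k] (f : k[X]) (a : k) :
    (f.map (algebraMap k (AlgebraicClosure k))).rootMultiplicity
      (algebraMap k (AlgebraicClosure k) a) = f.rootMultiplicity a :=
  (eq_rootMultiplicity_map (algebraMap k (AlgebraicClosure k)).injective a).symm

theorem third_of {k : Type} [Field k] {ℓ : ℕ} {f : k[X]} (hf : Nondegenerate ℓ f) :
    PDL.Third k (AlgebraicClosure k) ℓ f := by
  have hs : ∀ a : k, ¬ ℓ ∣ f.rootMultiplicity a → IsBranchPoint ℓ f (pt (some a)) := by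
    intro a ha
    change ¬ ℓ ∣ (f.map (algebraMap k (AlgebraicClosure k))).rootMultiplicity
      (algebraMap k (AlgebraicClosure k) a)
    rwa [mult_map]
  constructor
  · intro α β hab ha hb
    obtain ⟨p, h1, h2, h3, h4⟩ := hf.third (some α) (some β) (fun h => hab (Option.some.inj h))
      (hs α ha) (hs β hb)
    cases p with
    | none => exact Or.inl h1
    | some θ =>
      exact Or.inr ⟨θ, h1, fun h => h2 (congrArg some h), fun h => h3 (congrArg some h), h4⟩
  · intro α ha hi
    obtain ⟨p, h1, h2, h3, h4⟩ := hf.third (some α) none (by simp) (hs α ha) hi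
    cases p with
    | none => exact absurd rfl h3
    | some θ => exact ⟨θ, h1, fun h => h2 (congrArg some h), h4⟩

theorem cross_of {k : Type} [Field k] {ℓ : ℕ} {f : k[X]} (hf : Nondegenerate ℓ f) (h2 : ℓ = 2) :
    PDL.Cross k (AlgebraicClosure k) f := by
  subst h2
  intro a b hab ha hb
  obtain ⟨p, q, h1, h2, h3, h4, h5, h6, h7, h8⟩ := hf.cross rfl a b hab
    ((isBranchPoint_iff 2 f _).2 ha) ((isBranchPoint_iff 2 f _).2 hb)
  refine ⟨p, q, (isBranchPoint_iff 2 f _).1 h1, (isBranchPoint_iff 2 f _).1 h2, h3, h4, h5, h6, h7,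
    fun z hz => ?_⟩
  have h9 := h8 z hz
  rwa [diff_eq, diff_eq, diff_eq, diff_eq] at h9

section lev

variable {k K : Type} [Field k] [Field K] [Algebra k K]

theorem geomField_pair (x y : K) : geomField k {x, y} = PDL.KB2 k x y := by
  unfold geomField PDL.KB2
  rw [Set.image_pair]

theorem geomField_single (x : K) : geomField k {x} = PDL.KB1 k x := by
  unfold geomField PDL.KB1
  rw [Set.image_singleton]

/-- the roots, with a variable field `B` -/
def RootIn (B A : Subfield (AlgebraicClosure K)) (m : ℕ) (w : AlgebraicClosure K) : Prop :=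
  ∃ u : B, (u : AlgebraicClosure K) = w ^ m ∧ (u : AlgebraicClosure K) ∈ A ∧
    ∀ P : ValuationSubring B, (∀ z : B, IsAlgebraic k (z : AlgebraicClosure K) → z ∈ P) →
      ∃ z : B, P.valuation u = P.valuation z ^ m

theorem isUnramifiedRoot_iff (A : Subfield (AlgebraicClosure K)) (x y : K) (m : ℕ)
    (w : AlgebraicClosure K) :
    IsUnramifiedRoot k A x y m w ↔ RootIn (k := k) (PDL.KB2 k x y) A m w := by
  rw [← geomField_pair]
  exact Iff.rfl

theorem level_single (x y : K) (m : ℕ) : Level k (geomField k {x}) x y m = PDL.Lev1 k x y m := by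
  unfold Level PDL.Lev1
  have h1 : {w | IsUnramifiedRoot k (geomField k {x}) x y m w} = {w | PDL.IsRt1 k x y m w} := by
    ext w
    rw [Set.mem_setOf_eq, Set.mem_setOf_eq, isUnramifiedRoot_iff, geomField_single]
    exact Iff.rfl
  rw [h1]

theorem level_pair (x y : K) (m : ℕ) :
    Level k (geomField k {x, y}) x y m = Pool.Agent.TW.Lev k x y m := by
  unfold Level Pool.Agent.TW.Lev
  have h1 : {w | IsUnramifiedRoot k (geomField k {x, y}) x y m w} =
      {w | Pool.Agent.TW.IsRt k x y m w} := by
    ext w
    rw [Set.mem_setOf_eq, Set.mem_setOf_eq, isUnramifiedRoot_iff, geomField_pair]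
    constructor
    · rintro ⟨u, h1, -, h2⟩
      exact ⟨u, h1, h2⟩
    · rintro ⟨u, h1, h2⟩
      exact ⟨u, h1, u.2, h2⟩
  rw [h1]

theorem fixesPole_single (s : GaloisSection k K) (x y : K) (m : ℕ) (u : K) :
    FixesPole s (Level k (geomField k {x}) x y m) u ↔ PDL.AgrAt s x y m u := by
  rw [level_single]
  exact Iff.rfl

theorem agrees_pair (s : GaloisSection k K) (x y : K) (m : ℕ) :
    Agrees s (geomField k {x, y}) x y m none ↔ Pool.Agent.TW.AgrInf s x y m := by
  unfold Agrees
  rw [level_pair]
  exact Iff.rfl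

end lev

theorem othL_of {k : Type} [Field k] {ℓ : ℕ} {f : k[X]} {c : k} (h : HasOtherSection ℓ f c) :
    PDL.OthL f ℓ c := by
  obtain ⟨K, i1, i2, x, y, hx, hy, s, hs⟩ := h
  refine ⟨K, i1, i2, x, y, hx, hy, s, fun hi h1 => hs none hi ?_, fun α hα h1 => hs (some α) ?_ ?_⟩
  · exact (fixesPole_single s x y ℓ x).2 h1
  · change ¬ ℓ ∣ (f.map (algebraMap k (AlgebraicClosure k))).rootMultiplicity
      (algebraMap k (AlgebraicClosure k) α)
    rwa [mult_map]
  · exact (fixesPole_single s x y ℓ _).2 h1

theorem oth_of {k : Type} [Field k] {f : k[X]} {m : ℕ} {c : k} (h : HasOtherSectionMod f m c) :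
    Pool.Agent.TW.Oth f m c := by
  obtain ⟨K, i1, i2, x, y, hx, hy, s, hs⟩ := h
  exact ⟨K, i1, i2, x, y, hx, hy, s, fun h1 => hs ((agrees_pair s x y m).2 h1)⟩

theorem level_le {k K : Type} [Field k] [Field K] [Algebra k K]
    (A : Subfield (AlgebraicClosure K)) (x y : K) (m : ℕ) :
    Level k A x y m ≤ Pool.Agent.TW.Lev k x y m := by
  rw [← level_pair]
  unfold Level
  refine Subfield.closure_mono (Set.union_subset_union_right _ ?_)
  rintro w ⟨u, h1, -, h2⟩
  exact ⟨u, h1, u.2, h2⟩

theorem onFixedCurve_iff {k : Type} [Field k] (ℓ : ℕ) (f : k[X]) (x₀ : k) :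
    OnFixedCurve ℓ f x₀ ↔ PD37.OnCfL ℓ f x₀ := by
  have hset : ∀ p : Option (AlgebraicClosure k),
      {e : AlgebraicClosure k | p = some e ∨ p = some e} = {e | p = some e} := fun p =>
    Set.ext fun e => or_self_iff
  unfold OnFixedCurve PD37.OnCfL adjoinPts
  simp only [isBranchPoint_iff, diff_eq, hset]
  exact Iff.rfl

theorem zeroPercent_of {k : Type} [Field k] [NumberField k] {ℓ : ℕ} (hℓ : ℓ.Prime)
    (hζ : ∃ ζ : k, IsPrimitiveRoot ζ ℓ) {P : k → Prop} (h : PD.Rare ℓ P) : ZeroPercent ℓ P :=
  (PD.rat k ℓ hℓ hζ P h).2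

theorem classes_finite {k : Type} [Field k] [NumberField k] {ℓ : ℕ} (hℓ : ℓ.Prime)
    (hζ : ∃ ζ : k, IsPrimitiveRoot ζ ℓ) (X : ℕ) : (classes ℓ (fun _ : k => True) X).Finite := by
  refine (PD.rat k ℓ hℓ hζ (fun _ => False) ?_).1 X
  intro ε hε
  refine Eventually.of_forall fun X T _ hT => ?_
  have h1 : T = ∅ := Finset.eq_empty_of_forall_notMem fun c hc => (hT c hc).2.2
  rw [h1, Finset.card_empty, Nat.cast_zero]
  exact mul_nonneg hε.le (mul_nonneg (Nat.cast_nonneg X)
    (Real.rpow_nonneg (Real.log_natCast_nonneg X) _))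

theorem zeroPercent_mono {k : Type} [Field k] [NumberField k] {ℓ : ℕ} (hℓ : ℓ.Prime)
    (hζ : ∃ ζ : k, IsPrimitiveRoot ζ ℓ) {P P' : k → Prop} (h : ∀ c : k, P c → P' c)
    (hP : Tendsto (fun X : ℕ => (Nat.card (LN.clsP (k := k) ℓ P' X) : ℝ) /
      Nat.card (LN.clsP (k := k) ℓ (fun _ => True) X)) atTop (𝓝 0)) : ZeroPercent ℓ P := by
  refine squeeze_zero (fun X => by positivity) (fun X => ?_) hP
  refine div_le_div_of_nonneg_right ?_ (Nat.cast_nonneg _)
  have hfin : (LN.clsP (k := k) ℓ P' X).Finite :=
    (classes_finite hℓ hζ X).subset fun C ⟨c, h1, h2, _⟩ => ⟨c, h1, h2, trivial⟩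
  have hsub : classes ℓ P X ⊆ LN.clsP (k := k) ℓ P' X := by
    rintro C ⟨c, h1, h2, h3⟩
    exact ⟨c, h1, h2, h c h3⟩
  exact_mod_cast Nat.card_mono hfin hsub

end bridge

theorem result {k : Type} [Field k] [NumberField k] {ℓ : ℕ} (hℓ : ℓ.Prime)
    (hζ : ∃ ζ : k, IsPrimitiveRoot ζ ℓ) (f : k[X]) (hf : Nondegenerate ℓ f) :
    (∀ X : ℕ, (classes ℓ (fun _ : k => True) X).Finite) ∧
    -- in every twist the rational branch points have sections, which agree with them on all levels
    (∀ c : k, c ≠ 0 → ∀ a : Option k, IsBranchPoint ℓ f (pt a) →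
      ∃ (K : Type) (_ : Field K) (_ : Algebra k K) (x y : K), Transcendental k x ∧
      y ^ ℓ = algebraMap k K c * aeval x f ∧ IntermediateField.adjoin k {x, y} = ⊤ ∧
      ∃ s : GaloisSection k K, ∀ (A : Subfield (AlgebraicClosure K)) (m : ℕ), 0 < m →
        Agrees s A x y m a) ∧
    -- 100 percent of the twists, and the curves above them, have no other section modulo `1 - ζ`
    ZeroPercent ℓ (HasOtherSection ℓ f) ∧
    -- and none modulo `2 ^ n` if `ℓ = 2` and `f` is irreducible of odd degree at least `5`
    (ℓ = 2 → Irreducible f → Odd f.natDegree → 5 ≤ f.natDegree → ∀ n : ℕ,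
      ZeroPercent ℓ (HasOtherSectionMod f (2 ^ n))) ∧
    -- the solutions `x, y ∈ k`, `y ≠ 0`, for 100 percent of the twists come from fixed curves
    ZeroPercent ℓ (fun c : k => ∃ x₀ y₀ : k, y₀ ^ ℓ = c * eval x₀ f ∧ y₀ ≠ 0 ∧
      ¬ OnFixedCurve ℓ f x₀) ∧
    -- and if these have finitely many points (Faltings) then there are no such solutions
    ({x₀ : k | OnFixedCurve ℓ f x₀}.Finite →
      ZeroPercent ℓ (fun c : k => ∃ x₀ y₀ : k, y₀ ^ ℓ = c * eval x₀ f ∧ y₀ ≠ 0)) := by
  have h3' : 3 ≤ PDL.numBr k (AlgebraicClosure k) ℓ f := by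
    rw [← card_branch]
    exact hf.three
  have h4' : ℓ = 3 → 4 ≤ PDL.numBr k (AlgebraicClosure k) ℓ f := by
    rw [← card_branch]
    exact hf.four
  have h5' : ℓ = 2 → 5 ≤ PDL.numBr k (AlgebraicClosure k) ℓ f := by
    rw [← card_branch]
    exact hf.five
  have hR : PD.Rare ℓ (PDL.OthL f ℓ) :=
    PDL.rareA k ℓ f hℓ hζ h3' h4' h5' (third_of hf) (cross_of hf)
  have hf0 : f ≠ 0 := by
    rintro rfl
    have h6 := hf.three
    have h7 : IsEmpty {p : Option (AlgebraicClosure k) // IsBranchPoint ℓ (0 : k[X]) p} := by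
      refine ⟨fun ⟨p, hp⟩ => ?_⟩
      cases p with
      | none => exact hp (by rw [natDegree_zero]; exact dvd_zero ℓ)
      | some e =>
        refine hp ?_
        rw [Polynomial.map_zero, rootMultiplicity_zero]
        exact dvd_zero ℓ
    rw [Nat.card_of_isEmpty] at h6
    omega
  refine ⟨classes_finite hℓ hζ, fun c hc a ha => ?_, ?_, ?_, ?_, fun hF => ?_⟩
  · obtain ⟨K, i1, i2, x, y, hx, hy, htop, s, W, hW, hpol, -, hlev, -⟩ :=
      PD37.exists_agrL hℓ hf0 hc a ((isBranchPoint_iff ℓ f _).1 ha)
    refine ⟨K, i1, i2, x, y, hx, hy, htop, s, fun A m hm => ?_⟩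
    have key : FixesPole s (Level k A x y m) (PD37.polF x a) :=
      ⟨W, hW, hpol, fun w hw => hlev m hm w (level_le A x y m hw)⟩
    cases a with
    | none => exact key
    | some a => exact key
  · exact zeroPercent_of hℓ hζ (PD.rare_mono29 (fun c h => othL_of h) hR)
  · rintro rfl hirr hodd hdeg n
    exact zeroPercent_of hℓ hζ (PDL.rare2_10 (Pool.Agent.TW.fin k f hirr hodd hdeg n)
      fun c _ h => oth_of h)
  · refine zeroPercent_of hℓ hζ (PD.rare_mono29 (fun c h => ?_) (PD37.rare_ptsL hℓ hζ hR))
    obtain ⟨x₀, y₀, h1, h2, h3⟩ := h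
    exact ⟨x₀, y₀, h1, h2, fun h4 => h3 ((onFixedCurve_iff ℓ f x₀).2 h4)⟩
  · have hF' : {x₀ : k | PD37.OnCfL ℓ f x₀}.Finite := by
      refine hF.subset fun x₀ h => (onFixedCurve_iff ℓ f x₀).2 h
    exact zeroPercent_of hℓ hζ (PD37.rare_anyL hℓ hζ hR hF')

end

end Pool.Agent.Results.MP_e66f84_ag.PrimeDegreeTwists
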