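import Pool.Agent.Helper97.PLG.All
import Pool.Agent.Helper10.PLG.GCG
import Pool.Agent.Helper45.PLG.UnqG

/-!
# Sections of almost all twists of a cyclic cover of prime degree of a curve

Let `ℓ` be a prime, `k` a number field which contains the `ℓ`-th roots of unity, `K₀` the function
field of a curve `Y` over `k`, `h ∈ K₀`, and `X : y ^ ℓ = h`.  The twists `y ^ ℓ = c h`,
`c ∈ k* / k* ^ ℓ`, are ordered by the norm `cond c` of the product of the primes `v` of `k` with
`ℓ ∤ v(c)`.  The branch points are the points `P` of `Y` over the algebraic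
closure with `ℓ ∤ v_P(h)`.  Above a rational branch point there is exactly one point of the twist, it
is rational.

We assume `ManyBranchPoints k ℓ h`: there are `n ≥ 3` branch points, `n ≥ 4` if `ℓ = 3`, `n ≥ 5` if
`ℓ = 2`; and for any two rational branch points `ℓ` is odd and there is a third closed branch point of
degree prime to `ℓ` over `k`.

Let `T₀` be the function field of `X` over the algebraic closure of `k`, and `Tⱼ₊₁` the maximal abelian
unramified extension of exponent `ℓ` of `Tⱼ` (every finite Galois extension of `T₀`, unramified and of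
degree a power of `ℓ`, is contained in some `Tⱼ`).

**Theorem.**  There is a function `J → ∞` such that for 100 percent of the `c`, with `j = J (cond c)`, every
Galois section of `y ^ ℓ = c h`, and of every curve over `k` which maps onto it, agrees on the level `N` with the
section of exactly one rational branch point `P`: it fixes a place of `N` above `P`.  Here `N = Tⱼ` if `ℓ` is odd;
for `ℓ = 2` it is the maximal abelian extension of exponent `2` of the function field of `Y` over the algebraic
closure of `k` which is unramified over `T₀`.  Conversely, in every twist every rational branch point has a Galois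
section, which agrees with it on the whole universal cover.

So the sections, on the level `N`, correspond to the rational branch points, and 100 percent of the twists have no
section if no branch point is rational.  For example, for `ℓ ≥ 5`, the curves `x ^ ℓ + y ^ ℓ = c` have exactly the
`ℓ` sections of the points at infinity on the level `Tⱼ`.

The file contains two further theorems (they are not part of `result`).

`line`: let `Y` be the projective line and `h = f ∈ k[x]`.  We assume `Nondegenerate ℓ f`: the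
number `n` of branch points is as above; for any two rational branch points there is a third closed
branch point of degree prime to `ℓ` over `k`; and, if `ℓ = 2`, for any two rational branch points `a`,
`b` there are two other branch points `p`, `q` such that the cross ratio of `a`, `b`, `p`, `q` is not a
square in `k(p, q)`.  Then for all `ℓ` the statement for the maximal abelian extension of exponent `ℓ`
of `kbar(x)` which is unramified over `kbar(x, y)` holds; and, if `ℓ = 2` and `f` is irreducible of odd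
degree at least `5`, for the maximal abelian unramified extension of exponent `2ⁿ` of `kbar(x, y)`.

`points`: for 100 percent of the `c` all `x₀, y₀ ∈ k` with `y₀ ^ ℓ = c f(x₀)`, `y₀ ≠ 0`,
satisfy `OnFixedCurve ℓ f x₀`: for some rational branch point `P` and some `t ∈ k`, for all branch
points `p ≠ P`, `x₀ - p = t z ^ ℓ (P - p)` with `z ∈ k(p)` (differences with infinity are `1`).  This
condition does not depend on `c`: such `x₀` come from the `k`-points of finitely many curves, one for
each `P`, of genus at least two if `(n - 1)(ℓ - 1) > 2 ℓ`; then there are finitely many by the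
theorem of Faltings, and 100 percent of the equations `y ^ ℓ = c f(x)` have no solution `x, y ∈ k`
with `y ≠ 0`.
-/

set_option autoImplicit false

namespace Pool.Agent.Helper97.Draft.PrimeDegreeTwists8

open Polynomial NumberField IsDedekindDomain Filter Topology VC Pool.Agent.Helper91.Sect

noncomputable section

/-! ## The classes of `k* / k* ^ ℓ` -/

/-- `ℓ ∤ v(c)`: the value of `c` is not the `ℓ`-th power of the value of an element. -/
def IsRam {k : Type} [Field k] [NumberField k] (ℓ : ℕ) (v : HeightOneSpectrum (𝓞 k)) (c : k) :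
    Prop :=
  ∀ d : k, v.valuation k c ≠ v.valuation k d ^ ℓ

open scoped Classical in
/-- The norm of the product of the primes `v` of `k` with `ℓ ∤ v(c)`. -/
def cond {k : Type} [Field k] [NumberField k] (ℓ : ℕ) (c : k) : ℕ :=
  ∏ᶠ v : HeightOneSpectrum (𝓞 k), if IsRam ℓ v c then Ideal.absNorm v.asIdeal else 1

/-- The group `k* / k* ^ ℓ`. -/
abbrev Cls (k : Type) [Field k] (ℓ : ℕ) : Type := kˣ ⧸ (powMonoidHom ℓ : kˣ →* kˣ).range

/-- The classes in `k* / k* ^ ℓ` of the elements `c` with `cond ℓ c ≤ X` and the property `P`. -/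
def classes {k : Type} [Field k] [NumberField k] (ℓ : ℕ) (P : k → Prop) (X : ℕ) :
    Set (Cls k ℓ) :=
  {C | ∃ c : kˣ, (c : Cls k ℓ) = C ∧ cond ℓ (c : k) ≤ X ∧ P c}

/-- There are finitely many classes `c` with `cond ℓ c ≤ X`, for all `X`, and zero percent of the classes have the
property `P`. -/
def ZeroPercent {k : Type} [Field k] [NumberField k] (ℓ : ℕ) (P : k → Prop) : Prop :=
  (∀ X : ℕ, (classes ℓ (fun _ : k => True) X).Finite) ∧
  Tendsto (fun X : ℕ => (Nat.card (classes ℓ P X) : ℝ) /
    Nat.card (classes ℓ (fun _ : k => True) X)) atTop (𝓝 0)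

/-! ## The levels -/

section levels

variable (k : Type) {K : Type} [Field k] [Field K] [Algebra k K]

/-- The field generated by the constants and the image of a subset of `K`, in the algebraic closure
of `K`. -/
def geomField (S : Set K) : Subfield (AlgebraicClosure K) :=
  Subfield.closure ({z | IsAlgebraic k z} ∪ algebraMap K (AlgebraicClosure K) '' S)

/-- `w ^ m` is an element `u` of the field `A`, and of the field `T`, where its divisor is divisible
by `m`: at every valuation ring `P` of `T` which contains the constants, the value of `u` is an `m`-th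
power of a value. -/
def IsUnramifiedRoot (T A : Subfield (AlgebraicClosure K)) (m : ℕ) (w : AlgebraicClosure K) : Prop :=
  ∃ u : T, (u : AlgebraicClosure K) = w ^ m ∧ (u : AlgebraicClosure K) ∈ A ∧
    ∀ P : ValuationSubring T, (∀ z : T, IsAlgebraic k (z : AlgebraicClosure K) → z ∈ P) →
      ∃ z : T, P.valuation u = P.valuation z ^ m

/-- The field generated over `T` by all these roots.  For `A = T`: the maximal abelian unramified
extension of exponent `m` of `T`; for `A ⊆ T = A(y)`, `y ^ m ∈ A`: the maximal abelian extension of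
exponent `m` of `A` which is unramified over `T`. -/
def level (T A : Subfield (AlgebraicClosure K)) (m : ℕ) : Subfield (AlgebraicClosure K) :=
  Subfield.closure ((T : Set (AlgebraicClosure K)) ∪ {w | IsUnramifiedRoot k T A m w})

/-- The tower `T₀ = T`, `Tⱼ₊₁` the maximal abelian unramified extension of exponent `ℓ` of `Tⱼ`. -/
def tower (ℓ : ℕ) (T : Subfield (AlgebraicClosure K)) : ℕ → Subfield (AlgebraicClosure K)
  | 0 => T
  | j + 1 => level k (tower ℓ T j) (tower ℓ T j) ℓ

end levels

/-- The section `s` fixes the place `Q ∩ N` of the field `N`: the valuation ring `Q` of the algebraic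
closure of `K` contains the constants, `N` is contained in `Kur k K`, and all `s(g)` map `Q ∩ N` to
itself. -/
structure FixesPlace {k K : Type} [Field k] [Field K] [Algebra k K] (s : GaloisSection k K)
    (N : Subfield (AlgebraicClosure K)) (Q : ValuationSubring (AlgebraicClosure K)) : Prop where
  const : ∀ z, IsAlgebraic k z → z ∈ Q
  fix : ∀ w ∈ N, ∃ hw : w ∈ Kur k K, ∀ g : Gk k K,
    (w ∈ Q ↔ (s.toHom g ⟨w, hw⟩ : AlgebraicClosure K) ∈ Q)

/-! ## Cyclic covers of a curve -/

section curves

variable (k : Type) [Field k]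

/-- `K₀/k` is the function field of a (geometrically integral) curve: a function field of one
variable in which `k` is algebraically closed. -/
structure IsCurve (K₀ : Type) [Field K₀] [Algebra k K₀] : Prop where
  ff : IsFunctionField k K₀
  closed : ∀ z : K₀, IsAlgebraic k z → ∃ a : k, algebraMap k K₀ a = z

variable {K₀ : Type} [Field K₀] [Algebra k K₀] (ℓ : ℕ) (h : K₀)

/-- A geometric branch point of `y ^ ℓ = h`: a valuation ring `P` of `K₀` containing `k` at which the
value of `h` is not the `ℓ`-th power of a value, with a homomorphism over `k` from `P` to the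
algebraic closure of `k`, that is an embedding of its residue field. -/
@[ext] structure BranchPoint where
  P : ValuationSubring K₀
  φ : P →+* AlgebraicClosure k
  const : ∀ a : k, algebraMap k K₀ a ∈ P
  ram : ∀ z : K₀, P.valuation h ≠ P.valuation z ^ ℓ
  emb : ∀ (a : k) (x : P), (x : K₀) = algebraMap k K₀ a →
    φ x = algebraMap k (AlgebraicClosure k) a

variable {k ℓ h}

/-- The action of the Galois group on the geometric branch points. -/
def BranchPoint.map (b : BranchPoint k ℓ h) (σ : AlgebraicClosure k ≃ₐ[k] AlgebraicClosure k) :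
    BranchPoint k ℓ h where
  P := b.P
  φ := (σ : AlgebraicClosure k →+* AlgebraicClosure k).comp b.φ
  const := b.const
  ram := b.ram
  emb := fun a x hx => by
    change σ (b.φ x) = _
    rw [b.emb a x hx, σ.commutes]

/-- The branch point is rational over `k`. -/
def BranchPoint.IsRational (b : BranchPoint k ℓ h) : Prop := ∀ σ, b.map σ = b

/-- The degree over `k` of the branch point: the number of its conjugates. -/
def BranchPoint.degree (b : BranchPoint k ℓ h) : ℕ :=
  Nat.card {p : BranchPoint k ℓ h // ∃ σ, b.map σ = p}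

variable (k ℓ h)

/-- There are at least three branch points, four if `ℓ = 3` and five if `ℓ = 2`; if two of them are
rational then `ℓ` is odd and there is a third closed branch point of degree prime to `ℓ`. -/
structure ManyBranchPoints : Prop where
  three : 3 ≤ Nat.card (BranchPoint k ℓ h)
  four : ℓ = 3 → 4 ≤ Nat.card (BranchPoint k ℓ h)
  five : ℓ = 2 → 5 ≤ Nat.card (BranchPoint k ℓ h)
  pair : ∀ a b : BranchPoint k ℓ h, a.IsRational → b.IsRational → a ≠ b → ℓ ≠ 2 ∧
    ∃ p : BranchPoint k ℓ h, p ≠ a ∧ p ≠ b ∧ ¬ ℓ ∣ p.degree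

end curves

section ext

variable (k K₀ : Type) (K : Type) [Field k] [Field K₀] [Field K] [Algebra k K] [Algebra K₀ K]

/-- The function field of `Y` over the algebraic closure of `k`, in the algebraic closure of
`K ⊇ K₀`. -/
def fieldY : Subfield (AlgebraicClosure K) := geomField k (Set.range (algebraMap K₀ K))

variable {K}

/-- The function field of the cover over the algebraic closure of `k`. -/
def fieldX (y : K) : Subfield (AlgebraicClosure K) :=
  geomField k (insert y (Set.range (algebraMap K₀ K)))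

/-- For all extensions `K` of `k` and `K₀` and all `y ∈ K` a subfield of the algebraic closure
of `K`. -/
abbrev Levels : Type 1 :=
  ∀ (K : Type) [Field K] [Algebra k K] [Algebra K₀ K], K → Subfield (AlgebraicClosure K)

end ext

/-- The level for the parameter `j`: for odd `ℓ` the field `Tⱼ` of the tower above the function field
`T₀` of the cover, for `ℓ = 2` the maximal abelian extension of exponent `2` of the function field of
`Y` (over the algebraic closure of `k`) which is unramified over `T₀`. -/
def sectionLevel (k K₀ : Type) [Field k] [Field K₀] (ℓ j : ℕ) : Levels k K₀ := fun K _ _ _ y =>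
  if ℓ = 2 then level k (fieldX k K₀ y) (fieldY k K₀ K) 2 else tower k ℓ (fieldX k K₀ y) j

/-- The section `s` agrees on `N` with the point `P` of `Y`: it fixes a place of `N` above `P`. -/
def Agrees {k K₀ K : Type} [Field k] [Field K₀] [Field K] [Algebra k K] [Algebra K₀ K]
    (s : GaloisSection k K) (N : Subfield (AlgebraicClosure K)) (P : ValuationSubring K₀) : Prop :=
  ∃ Q : ValuationSubring (AlgebraicClosure K), FixesPlace s N Q ∧
    ∀ x : K₀, x ∈ P ↔ algebraMap K (AlgebraicClosure K) (algebraMap K₀ K x) ∈ Q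

/-- Some curve over `k` which maps onto `y ^ ℓ = c h` has a section which does not agree on the level
`N` with exactly one rational branch point: there are an extension `K` of `k` and `K₀` and `y ∈ K` with
`y ^ ℓ = c h`, and such a section of `K/k` (`K` may be any such field; the curve itself is
`K = K₀(y)`). -/
def HasOtherSection (k : Type) {K₀ : Type} [Field k] [Field K₀] [Algebra k K₀] (ℓ : ℕ) (h : K₀)
    (N : Levels k K₀) (c : k) : Prop :=
  ∃ (K : Type) (_ : Field K) (_ : Algebra k K) (_ : Algebra K₀ K) (_ : IsScalarTower k K₀ K)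
    (y : K), y ^ ℓ = algebraMap k K c * algebraMap K₀ K h ∧ ∃ s : GaloisSection k K,
      ¬ ∃! P : ValuationSubring K₀,
        (∃ b : BranchPoint k ℓ h, b.IsRational ∧ b.P = P) ∧ Agrees s (N K y) P

/-! ## The line -/

/-- The point `p` of the projective line (`none` is infinity) is a branch point of
`y ^ ℓ = f(x)`. -/
def IsBranchPoint {k E : Type} [Field k] [Field E] [Algebra k E] (ℓ : ℕ) (f : k[X]) :
    Option E → Prop
  | none => ¬ ℓ ∣ f.natDegree
  | some e => ¬ ℓ ∣ (f.map (algebraMap k E)).rootMultiplicity e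

/-- The degree over `k` of a point of the projective line. -/
def deg (k : Type) {E : Type} [Field k] [Field E] [Algebra k E] : Option E → ℕ
  | none => 1
  | some e => (minpoly k e).natDegree

/-- The difference of two points, `1` if one of them is infinity. -/
def diff {E : Type} [Field E] : Option E → Option E → E
  | some p, some q => p - q
  | _, _ => 1

/-- The field generated by two points. -/
def adjoinPts (k : Type) {E : Type} [Field k] [Field E] [Algebra k E] (p q : Option E) :
    IntermediateField k E :=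
  IntermediateField.adjoin k {e : E | p = some e ∨ q = some e}

/-- The point `a` of the projective line over `k`, as a point over the algebraic closure. -/
abbrev pt {k : Type} [Field k] (a : Option k) : Option (AlgebraicClosure k) :=
  a.map (algebraMap k (AlgebraicClosure k))

/-- There are enough branch points; for any two rational branch points there is a third closed
branch point of degree prime to `ℓ`, and if `ℓ = 2` there are two other branch points `p ≠ q` such
that the cross ratio is not a square in `k(p, q)`. -/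
structure Nondegenerate {k : Type} [Field k] (ℓ : ℕ) (f : k[X]) : Prop where
  three : 3 ≤ Nat.card {p : Option (AlgebraicClosure k) // IsBranchPoint ℓ f p}
  four : ℓ = 3 → 4 ≤ Nat.card {p : Option (AlgebraicClosure k) // IsBranchPoint ℓ f p}
  five : ℓ = 2 → 5 ≤ Nat.card {p : Option (AlgebraicClosure k) // IsBranchPoint ℓ f p}
  third : ∀ a b : Option k, a ≠ b → IsBranchPoint ℓ f (pt a) → IsBranchPoint ℓ f (pt b) →
    ∃ p : Option (AlgebraicClosure k), IsBranchPoint ℓ f p ∧ p ≠ pt a ∧ p ≠ pt b ∧
      ¬ ℓ ∣ deg k p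
  cross : ℓ = 2 → ∀ a b : Option k, a ≠ b → IsBranchPoint ℓ f (pt a) →
    IsBranchPoint ℓ f (pt b) → ∃ p q : Option (AlgebraicClosure k), IsBranchPoint ℓ f p ∧
      IsBranchPoint ℓ f q ∧ p ≠ q ∧ p ≠ pt a ∧ p ≠ pt b ∧ q ≠ pt a ∧ q ≠ pt b ∧
      ∀ z ∈ adjoinPts k p q,
        z ^ 2 ≠ diff p (pt a) * diff p (pt b) * (diff q (pt a) * diff q (pt b))

/-- The section `s` agrees on `N` with the rational point `a` of the line: it fixes a place of `N`
above `x = a`. -/
def AgreesLine {k K : Type} [Field k] [Field K] [Algebra k K] (s : GaloisSection k K)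
    (N : Subfield (AlgebraicClosure K)) (x : K) (a : Option k) : Prop :=
  ∃ Q : ValuationSubring (AlgebraicClosure K), FixesPlace s N Q ∧
    algebraMap K (AlgebraicClosure K)
      (a.elim x fun a => (x - algebraMap k K a)⁻¹) ∉ Q

/-- For all extensions `K` of `k` and all `x, y ∈ K` a subfield of the algebraic closure of `K`. -/
abbrev LevelsLine (k : Type) [Field k] : Type 1 :=
  ∀ (K : Type) [Field K] [Algebra k K], K → K → Subfield (AlgebraicClosure K)

/-- Some curve over `k` which maps onto `y ^ ℓ = c f(x)` has a section which agrees on the level `N`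
with no rational branch point: there are an extension `K` of `k` and `x, y ∈ K` with `x`
transcendental and `y ^ ℓ = c f(x)`, and such a section of `K/k`. -/
def HasOtherSectionLine {k : Type} [Field k] (ℓ : ℕ) (f : k[X]) (N : LevelsLine k) (c : k) : Prop :=
  ∃ (K : Type) (_ : Field K) (_ : Algebra k K) (x y : K), Transcendental k x ∧
    y ^ ℓ = algebraMap k K c * aeval x f ∧ ∃ s : GaloisSection k K,
      ∀ a : Option k, IsBranchPoint ℓ f (pt a) → ¬ AgreesLine s (N K x y) x a

/-- For some rational branch point `P` and some `t ∈ k`, for all branch points `p ≠ P`: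
`x₀ - p = t z ^ ℓ (P - p)` with `z ∈ k(p)` (differences with infinity are `1`). -/
def OnFixedCurve {k : Type} [Field k] (ℓ : ℕ) (f : k[X]) (x₀ : k) : Prop :=
  ∃ P : Option k, IsBranchPoint ℓ f (pt P) ∧ ∃ t : k, ∀ p : Option (AlgebraicClosure k),
    IsBranchPoint ℓ f p → p ≠ pt P → ∃ z ∈ adjoinPts k p p,
      diff (pt (some x₀)) p = algebraMap k (AlgebraicClosure k) t * z ^ ℓ * diff (pt P) p

/-! ## The translation to the project files -/

section bridge

open Pool.Agent

theorem isBranchPoint_iff {k E : Type} [Field k] [Field E] [Algebra k E] (ℓ : ℕ) (f : k[X])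
    (p : Option E) : IsBranchPoint ℓ f p ↔ PDL.BrP ℓ f p := by
  cases p <;> exact Iff.rfl

theorem diff_eq {E : Type} [Field E] (p q : Option E) : diff p q = PDL.dif p q := by
  cases p <;> cases q <;> rfl

theorem card_branch {k : Type} [Field k] (ℓ : ℕ) (f : k[X]) :
    Nat.card {p : Option (AlgebraicClosure k) // IsBranchPoint ℓ f p} =
      PDL.numBr k (AlgebraicClosure k) ℓ f := by
  rw [← PDL.card_brP]
  exact Nat.card_congr (Equiv.subtypeEquivRight fun p => isBranchPoint_iff ℓ f p)

theorem mult_map {k : Type} [Field k] (f : k[X]) (a : k) :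
    (f.map (algebraMap k (AlgebraicClosure k))).rootMultiplicity
      (algebraMap k (AlgebraicClosure k) a) = f.rootMultiplicity a :=
  (eq_rootMultiplicity_map (algebraMap k (AlgebraicClosure k)).injective a).symm

theorem third_of {k : Type} [Field k] {ℓ : ℕ} {f : k[X]} (hf : Nondegenerate ℓ f) :
    PDL.Third k (AlgebraicClosure k) ℓ f := by
  have hs : ∀ a : k, ¬ ℓ ∣ f.rootMultiplicity a → IsBranchPoint ℓ f (pt (some a)) := by
    intro a ha
    change ¬ ℓ ∣ (f.map (algebraMap k (AlgebraicClosure k))).rootMultiplicity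
      (algebraMap k (AlgebraicClosure k) a)
    rwa [mult_map]
  constructor
  · intro α β hab ha hb
    obtain ⟨p, h1, h2, h3, h4⟩ := hf.third (some α) (some β) (fun h => hab (Option.some.inj h))
      (hs α ha) (hs β hb)
    cases p with
    | none => exact Or.inl h1
    | some θ =>
      exact Or.inr ⟨θ, h1, fun h => h2 (congrArg some h), fun h => h3 (congrArg some h), h4⟩
  · intro α ha hi
    obtain ⟨p, h1, h2, h3, h4⟩ := hf.third (some α) none (by simp) (hs α ha) hi
    cases p with
    | none => exact absurd rfl h3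
    | some θ => exact ⟨θ, h1, fun h => h2 (congrArg some h), h4⟩

theorem cross_of {k : Type} [Field k] {ℓ : ℕ} {f : k[X]} (hf : Nondegenerate ℓ f) (h2 : ℓ = 2) :
    PDL.Cross k (AlgebraicClosure k) f := by
  subst h2
  intro a b hab ha hb
  obtain ⟨p, q, h1, h2, h3, h4, h5, h6, h7, h8⟩ := hf.cross rfl a b hab
    ((isBranchPoint_iff 2 f _).2 ha) ((isBranchPoint_iff 2 f _).2 hb)
  refine ⟨p, q, (isBranchPoint_iff 2 f _).1 h1, (isBranchPoint_iff 2 f _).1 h2, h3, h4, h5, h6, h7,
    fun z hz => ?_⟩
  have h9 := h8 z hz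
  rwa [diff_eq, diff_eq, diff_eq, diff_eq] at h9

section lev

variable {k K : Type} [Field k] [Field K] [Algebra k K]

theorem geomField_pair (x y : K) : geomField k {x, y} = PDL.KB2 k x y := by
  unfold geomField PDL.KB2
  rw [Set.image_pair]

theorem geomField_single (x : K) : geomField k {x} = PDL.KB1 k x := by
  unfold geomField PDL.KB1
  rw [Set.image_singleton]

theorem level_geomField (S : Set K) (A : Subfield (AlgebraicClosure K)) (m : ℕ) :
    level k (geomField k S) A m = Subfield.closure ({z | IsAlgebraic k z} ∪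
      algebraMap K (AlgebraicClosure K) '' S ∪ {w | IsUnramifiedRoot k (geomField k S) A m w}) := by
  unfold level
  apply le_antisymm
  · refine Subfield.closure_le.2 (Set.union_subset ?_ fun w hw =>
      Subfield.subset_closure (Or.inr hw))
    have h1 : geomField k S ≤ Subfield.closure ({z | IsAlgebraic k z} ∪
        algebraMap K (AlgebraicClosure K) '' S ∪
        {w | IsUnramifiedRoot k (geomField k S) A m w}) :=
      Subfield.closure_mono Set.subset_union_left
    exact h1
  · exact Subfield.closure_mono (Set.union_subset_union_left _ fun z hz =>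
      Subfield.subset_closure hz)

/-- the roots, with a variable field `B` -/
theorem isUnramifiedRoot_congr {B B' A A' : Subfield (AlgebraicClosure K)} (hB : B = B')
    (hA : A = A') (m : ℕ) (w : AlgebraicClosure K) :
    IsUnramifiedRoot k B A m w ↔ IsUnramifiedRoot k B' A' m w := by
  rw [hB, hA]

theorem level_single (x y : K) (m : ℕ) :
    level k (geomField k {x, y}) (geomField k {x}) m = PDL.Lev1 k x y m := by
  rw [level_geomField]
  unfold PDL.Lev1
  have h1 : {w | IsUnramifiedRoot k (geomField k {x, y}) (geomField k {x}) m w} =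
      {w | PDL.IsRt1 k x y m w} := by
    ext w
    rw [Set.mem_setOf_eq, Set.mem_setOf_eq,
      isUnramifiedRoot_congr (geomField_pair x y) (geomField_single x)]
    exact Iff.rfl
  rw [h1, Set.image_pair]

theorem level_pair (x y : K) (m : ℕ) :
    level k (geomField k {x, y}) (geomField k {x, y}) m = Pool.Agent.TW.Lev k x y m := by
  rw [level_geomField]
  unfold Pool.Agent.TW.Lev
  have h1 : {w | IsUnramifiedRoot k (geomField k {x, y}) (geomField k {x, y}) m w} =
      {w | Pool.Agent.TW.IsRt k x y m w} := by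
    ext w
    rw [Set.mem_setOf_eq, Set.mem_setOf_eq,
      isUnramifiedRoot_congr (geomField_pair x y) (geomField_pair x y)]
    constructor
    · rintro ⟨u, h1, -, h2⟩
      exact ⟨u, h1, h2⟩
    · rintro ⟨u, h1, h2⟩
      exact ⟨u, h1, u.2, h2⟩
  rw [h1, Set.image_pair]

theorem polF_eq (x : K) (a : Option k) :
    (a.elim x fun a => (x - algebraMap k K a)⁻¹) = PD37.polF x a := by
  cases a <;> rfl

end lev

section gen

variable {k K₀ K : Type} [Field k] [Field K₀] [Field K] [Algebra k K] [Algebra K₀ K]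

theorem fieldX_eq (y : K) : fieldX k K₀ y = PRG.KBX k K₀ y := by
  unfold fieldX geomField PRG.KBX
  congr 1
  rw [Set.image_insert_eq, Set.union_assoc, ← Set.range_comp]
  congr 1
  rw [Set.insert_eq, Set.union_comm]
  rfl

theorem fieldY_eq : fieldY k K₀ K = PRG.KBY k K₀ := by
  unfold fieldY geomField PRG.KBY
  rw [← Set.range_comp]
  rfl

theorem tower_eq (ℓ : ℕ) (y : K) (j : ℕ) : tower k ℓ (fieldX k K₀ y) j = PRG.TG k K₀ y ℓ j := by
  induction j with
  | zero => exact fieldX_eq y
  | succ j ih =>
    change level k (tower k ℓ (fieldX k K₀ y) j) (tower k ℓ (fieldX k K₀ y) j) ℓ =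
      Subfield.closure ((PRG.TG k K₀ y ℓ j : Set (AlgebraicClosure K)) ∪
        {w | PRL.RtM k ℓ (PRG.TG k K₀ y ℓ j) w})
    rw [ih]
    unfold level
    congr 2
    ext w
    constructor
    · rintro ⟨u, h1, -, h2⟩
      exact ⟨u, h1, h2⟩
    · rintro ⟨u, h1, h2⟩
      exact ⟨u, h1, u.2, h2⟩

theorem level_eq (ℓ : ℕ) (y : K) :
    level k (fieldX k K₀ y) (fieldY k K₀ K) ℓ = PRG.YG k K₀ y ℓ := by
  rw [fieldX_eq, fieldY_eq]
  unfold level PRG.YG
  congr 2
  ext w
  constructor
  · rintro ⟨u, h1, h2, h3⟩
    exact ⟨h1 ▸ h2, u, h1, h3⟩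
  · rintro ⟨h2, u, h1, h3⟩
    exact ⟨u, h1, h1 ▸ h2, h3⟩

theorem agrees_of {s : GaloisSection k K} {N N' : Subfield (AlgebraicClosure K)} (hN : N = N')
    {P : ValuationSubring K₀} (h : PRG.AgrG s N' P) : Agrees s N P := by
  subst hN
  obtain ⟨Q, h1, h2, h3⟩ := h
  exact ⟨Q, ⟨h1, h3⟩, h2⟩

end gen

section br

variable {k K₀ : Type} [Field k] [Field K₀] [Algebra k K₀] {ℓ : ℕ} {h : K₀}

/-- the two structures of branch points -/
def toGBr : BranchPoint k ℓ h ≃ Pool.Agent.ML.GBr k (AlgebraicClosure k) ℓ h where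
  toFun b := ⟨b.P, b.φ, b.const, b.ram, b.emb⟩
  invFun b := ⟨b.P, b.φ, b.const, b.ram, b.emb⟩
  left_inv _ := rfl
  right_inv _ := rfl

theorem ratG_iff (b : BranchPoint k ℓ h) : PRG.RatG (toGBr b) ↔ b.IsRational := by
  constructor
  · exact fun hb σ => toGBr.injective (hb σ)
  · exact fun hb σ => congrArg toGBr (hb σ)

theorem ndG (H : ManyBranchPoints k ℓ h) : PRG.NdG k ℓ h := by
  have hc := Nat.card_congr (toGBr (k := k) (ℓ := ℓ) (h := h))
  refine ⟨hc ▸ H.three, fun h3 => hc ▸ H.four h3, fun h5 => hc ▸ H.five h5,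
    fun a b ha hb hab => ?_⟩
  obtain ⟨h1, p, h2, h3, h4⟩ := H.pair (toGBr.symm a) (toGBr.symm b)
    ((ratG_iff _).1 (by rwa [Equiv.apply_symm_apply]))
    ((ratG_iff _).1 (by rwa [Equiv.apply_symm_apply])) (fun h => hab (toGBr.symm.injective h))
  refine ⟨h1, toGBr p, fun h => h2 ?_, fun h => h3 ?_, fun h => h4 ?_⟩
  · rw [← h, Equiv.symm_apply_apply]
  · rw [← h, Equiv.symm_apply_apply]
  · refine h.trans (dvd_of_eq ?_)
    refine Nat.card_congr (Equiv.subtypeEquiv toGBr.symm fun q => ?_)
    constructor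
    · rintro ⟨g, hg⟩
      exact ⟨g, toGBr.injective (by rw [Equiv.apply_symm_apply]; exact hg)⟩
    · rintro ⟨g, hg⟩
      exact ⟨g, by rw [← toGBr.apply_symm_apply q, ← hg]; rfl⟩

/-- some section agrees on `YG` with two rational branch points -/
def Two (k : Type) {K₀ : Type} [Field k] [Field K₀] [Algebra k K₀] (ℓ : ℕ) (h : K₀) (c : k) :
    Prop :=
  ∃ (K : Type) (_ : Field K) (_ : Algebra k K) (_ : Algebra K₀ K) (_ : IsScalarTower k K₀ K)
    (y : K), y ^ ℓ = algebraMap k K c * algebraMap K₀ K h ∧ ∃ s : GaloisSection k K,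
      ∃ b b' : ML.GBr k (AlgebraicClosure k) ℓ h, PRG.RatG b ∧ PRG.RatG b' ∧ b.P ≠ b'.P ∧
        PRG.AgrG s (PRG.YG k K₀ y ℓ) b.P ∧ PRG.AgrG s (PRG.YG k K₀ y ℓ) b'.P

theorem othG_of {N N' : Levels k K₀} (hN : ∀ (K : Type) [Field K] [Algebra k K] [Algebra K₀ K]
    (y : K), N K y = N' K y) (hY : ∀ (K : Type) [Field K] [Algebra k K] [Algebra K₀ K]
    (y : K), PRG.YG k K₀ y ℓ ≤ N' K y) {c : k} (H : HasOtherSection k ℓ h N c) :
    PRG.OthG ℓ h N' c ∨ Two k ℓ h c := by
  obtain ⟨K, i1, i2, i3, i4, y, hy, s, hs⟩ := H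
  by_cases h1 : ∃ b : ML.GBr k (AlgebraicClosure k) ℓ h, PRG.RatG b ∧ PRG.AgrG s (N' K y) b.P
  · obtain ⟨b, hb, hA⟩ := h1
    right
    by_contra hcon
    refine hs ⟨b.P, ⟨⟨toGBr.symm b, (ratG_iff _).1 (by rwa [Equiv.apply_symm_apply]), rfl⟩,
      agrees_of (hN K y) hA⟩, ?_⟩
    rintro _ ⟨⟨b', hb', rfl⟩, hA'⟩
    by_contra hne
    have hmono : ∀ P : ValuationSubring K₀, PRG.AgrG s (N' K y) P →
        PRG.AgrG s (PRG.YG k K₀ y ℓ) P := by
      rintro P ⟨Q, h1, h2, h3⟩
      exact ⟨Q, h1, h2, fun w hw => h3 w (hY K y hw)⟩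
    refine hcon ⟨K, i1, i2, i3, i4, y, hy, s, b, toGBr b', hb, (ratG_iff _).2 hb',
      fun h => hne h.symm, hmono _ hA, hmono _ ?_⟩
    obtain ⟨Q, ⟨h1, h3⟩, h2⟩ := hA'
    exact ⟨Q, h1, h2, fun w hw => h3 w (by rwa [hN K y])⟩
  · exact Or.inl ⟨K, i1, i2, i3, i4, y, hy, s, fun b hb hA => h1 ⟨b, hb, hA⟩⟩

theorem yg_le_tg {K : Type} [Field K] [Algebra k K] [Algebra K₀ K] (y : K) {j : ℕ} (hj : 1 ≤ j) :
    PRG.YG k K₀ y ℓ ≤ PRG.TG k K₀ y ℓ j := by
  induction j, hj using Nat.le_induction with
  | base =>
    exact Subfield.closure_mono (Set.union_subset_union_right _ fun w hw => hw.2)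
  | succ j _ ih =>
    refine ih.trans fun w hw => Subfield.subset_closure (Or.inl hw)

end br

theorem isBranchPoint_some {k : Type} [Field k] {ℓ : ℕ} {f : k[X]} {a : k}
    (ha : ¬ ℓ ∣ f.rootMultiplicity a) : IsBranchPoint ℓ f (pt (some a)) := by
  change ¬ ℓ ∣ (f.map (algebraMap k (AlgebraicClosure k))).rootMultiplicity
    (algebraMap k (AlgebraicClosure k) a)
  rwa [mult_map]

theorem othL_of {k : Type} [Field k] {ℓ : ℕ} {f : k[X]} {c : k}
    (h : HasOtherSectionLine ℓ f
      (fun _ _ _ x y => level k (geomField k {x, y}) (geomField k {x}) ℓ) c) :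
    PDL.OthL f ℓ c := by
  obtain ⟨K, i1, i2, x, y, hx, hy, s, hs⟩ := h
  refine ⟨K, i1, i2, x, y, hx, hy, s, fun hi h1 => hs none hi ?_,
    fun α hα h1 => hs (some α) (isBranchPoint_some hα) ?_⟩
  all_goals
    obtain ⟨Q, h2, h3, h4⟩ := h1
    refine ⟨Q, ⟨h2, fun w hw => h4 w ?_⟩, h3⟩
    rwa [← level_single]

theorem oth_of {k : Type} [Field k] {f : k[X]} (hodd : Odd f.natDegree) {m : ℕ} {c : k}
    (h : HasOtherSectionLine 2 f
      (fun _ _ _ x y => level k (geomField k {x, y}) (geomField k {x, y}) m) c) :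
    Pool.Agent.TW.Oth f m c := by
  obtain ⟨K, i1, i2, x, y, hx, hy, s, hs⟩ := h
  refine ⟨K, i1, i2, x, y, hx, hy, s, fun h1 => hs none ?_ ?_⟩
  · change ¬ 2 ∣ f.natDegree
    rw [← even_iff_two_dvd, Nat.not_even_iff_odd]
    exact hodd
  · obtain ⟨Q, h2, h3, h4⟩ := h1
    refine ⟨Q, ⟨h2, fun w hw => h4 w ?_⟩, h3⟩
    rwa [← level_pair]

theorem onFixedCurve_iff {k : Type} [Field k] (ℓ : ℕ) (f : k[X]) (x₀ : k) :
    OnFixedCurve ℓ f x₀ ↔ PD37.OnCfL ℓ f x₀ := by
  have hset : ∀ p : Option (AlgebraicClosure k),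
      {e : AlgebraicClosure k | p = some e ∨ p = some e} = {e | p = some e} := fun p =>
    Set.ext fun e => or_self_iff
  unfold OnFixedCurve PD37.OnCfL adjoinPts
  simp only [isBranchPoint_iff, diff_eq, hset]
  exact Iff.rfl

theorem classes_finite {k : Type} [Field k] [NumberField k] {ℓ : ℕ} (hℓ : ℓ.Prime)
    (hζ : ∃ ζ : k, IsPrimitiveRoot ζ ℓ) (X : ℕ) : (classes ℓ (fun _ : k => True) X).Finite := by
  refine (PD.rat k ℓ hℓ hζ (fun _ => False) ?_).1 X
  intro ε hε
  refine Eventually.of_forall fun X T _ hT => ?_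
  have h1 : T = ∅ := Finset.eq_empty_of_forall_notMem fun c hc => (hT c hc).2.2
  rw [h1, Finset.card_empty, Nat.cast_zero]
  exact mul_nonneg hε.le (mul_nonneg (Nat.cast_nonneg X)
    (Real.rpow_nonneg (Real.log_natCast_nonneg X) _))

theorem zeroPercent_of {k : Type} [Field k] [NumberField k] {ℓ : ℕ} (hℓ : ℓ.Prime)
    (hζ : ∃ ζ : k, IsPrimitiveRoot ζ ℓ) {P : k → Prop} (h : PD.Rare ℓ P) : ZeroPercent ℓ P :=
  ⟨classes_finite hℓ hζ, (PD.rat k ℓ hℓ hζ P h).2⟩

end bridge

theorem rareL_of {k : Type} [Field k] [NumberField k] {ℓ : ℕ} (hℓ : ℓ.Prime)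
    (hζ : ∃ ζ : k, IsPrimitiveRoot ζ ℓ) (f : k[X]) (hf : Nondegenerate ℓ f) :
    PD.Rare ℓ (PDL.OthL f ℓ) := by
  have h3' : 3 ≤ PDL.numBr k (AlgebraicClosure k) ℓ f := by
    rw [← card_branch]
    exact hf.three
  have h4' : ℓ = 3 → 4 ≤ PDL.numBr k (AlgebraicClosure k) ℓ f := by
    rw [← card_branch]
    exact hf.four
  have h5' : ℓ = 2 → 5 ≤ PDL.numBr k (AlgebraicClosure k) ℓ f := by
    rw [← card_branch]
    exact hf.five
  exact PDL.rareA k ℓ f hℓ hζ h3' h4' h5' (third_of hf) (cross_of hf)

/-- The covers `y ^ ℓ = f(x)` of the line, with the weaker condition `Nondegenerate ℓ f` for `ℓ = 2`: no other section on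
the maximal abelian extension of exponent `ℓ` of `kbar(x)` which is unramified over `kbar(x, y)`; for `ℓ = 2` and `f`
irreducible of odd degree at least `5` modulo `2 ^ n`. -/
theorem line {k : Type} [Field k] [NumberField k] {ℓ : ℕ} (hℓ : ℓ.Prime)
    (hζ : ∃ ζ : k, IsPrimitiveRoot ζ ℓ) (f : k[X]) (hf : Nondegenerate ℓ f) :
    ZeroPercent ℓ (HasOtherSectionLine ℓ f fun _ _ _ x y =>
      level k (geomField k {x, y}) (geomField k {x}) ℓ) ∧
    (ℓ = 2 → Irreducible f → Odd f.natDegree → 5 ≤ f.natDegree → ∀ n : ℕ,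
      ZeroPercent ℓ (HasOtherSectionLine ℓ f fun _ _ _ x y =>
        level k (geomField k {x, y}) (geomField k {x, y}) (2 ^ n))) := by
  have hR := rareL_of hℓ hζ f hf
  refine ⟨?_, ?_⟩
  · exact zeroPercent_of hℓ hζ (PD.rare_mono29 (fun c h => othL_of h) hR)
  · rintro rfl hirr hodd hdeg n
    exact zeroPercent_of hℓ hζ (PDL.rare2_10 (Pool.Agent.TW.fin k f hirr hodd hdeg n)
      fun c _ h => oth_of hodd h)

/-- The solutions `x, y ∈ k`, `y ≠ 0`, of `y ^ ℓ = c f(x)` for 100 percent of the twists come from fixed curves, and if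
these have finitely many points (Faltings) then there are no such solutions. -/
theorem points {k : Type} [Field k] [NumberField k] {ℓ : ℕ} (hℓ : ℓ.Prime)
    (hζ : ∃ ζ : k, IsPrimitiveRoot ζ ℓ) (f : k[X]) (hf : Nondegenerate ℓ f) :
    ZeroPercent ℓ (fun c : k => ∃ x₀ y₀ : k, y₀ ^ ℓ = c * eval x₀ f ∧ y₀ ≠ 0 ∧
      ¬ OnFixedCurve ℓ f x₀) ∧
    ({x₀ : k | OnFixedCurve ℓ f x₀}.Finite →
      ZeroPercent ℓ (fun c : k => ∃ x₀ y₀ : k, y₀ ^ ℓ = c * eval x₀ f ∧ y₀ ≠ 0)) := by
  have hR := rareL_of hℓ hζ f hf
  refine ⟨?_, fun hF => ?_⟩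
  · refine zeroPercent_of hℓ hζ (PD.rare_mono29 (fun c h => ?_) (PD37.rare_ptsL hℓ hζ hR))
    obtain ⟨x₀, y₀, h1, h2, h3⟩ := h
    exact ⟨x₀, y₀, h1, h2, fun h4 => h3 ((onFixedCurve_iff ℓ f x₀).2 h4)⟩
  · have hF' : {x₀ : k | PD37.OnCfL ℓ f x₀}.Finite := by
      refine hF.subset fun x₀ h => (onFixedCurve_iff ℓ f x₀).2 h
    exact zeroPercent_of hℓ hζ (PD37.rare_anyL hℓ hζ hR hF')

/-- **The sections of almost all twists of a cyclic cover of prime degree.** -/
theorem result {k : Type} [Field k] [NumberField k] {ℓ : ℕ} (hℓ : ℓ.Prime)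
    (hζ : ∃ ζ : k, IsPrimitiveRoot ζ ℓ)
    -- the cover `y ^ ℓ = h` of a curve `Y` with function field `K₀`
    {K₀ : Type} [Field K₀] [Algebra k K₀] (h : K₀) (H : IsCurve k K₀)
    (HB : ManyBranchPoints k ℓ h) :
    -- in every twist the rational branch points have sections, which agree with them on `Kur`
    (∀ c : k, c ≠ 0 → ∀ b : BranchPoint k ℓ h, b.IsRational →
      ∃ (K : Type) (_ : Field K) (_ : Algebra k K) (_ : Algebra K₀ K) (_ : IsScalarTower k K₀ K)
      (y : K), y ^ ℓ = algebraMap k K c * algebraMap K₀ K h ∧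
      IntermediateField.adjoin K₀ {y} = ⊤ ∧ ∃ s : GaloisSection k K,
        ∀ N : Subfield (AlgebraicClosure K), (∀ w ∈ N, w ∈ Kur k K) → Agrees s N b.P) ∧
    -- and for 100 percent of the twists all sections, also of the curves above the twist, agree
    -- with exactly one rational branch point on the level with `j = J (cond c)`
    ∃ J : ℕ → ℕ, Tendsto J atTop atTop ∧ ZeroPercent ℓ (fun c : k =>
      HasOtherSection k ℓ h (sectionLevel k K₀ ℓ (J (cond ℓ c))) c) := by
  have hG : LN.GoodCurve k ℓ h := PRG.gCG k K₀ ℓ h hℓ H.ff H.closed (ndG HB).three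
  have hR := PRG.rareGA k K₀ ℓ h hℓ hζ hG (ndG HB)
  have hU : PD.Rare ℓ (Two k ℓ h) := PRG.uniqG k K₀ ℓ h hℓ hζ hG (ndG HB).three
  refine ⟨fun c hc b hb => ?_, ?_⟩
  · obtain ⟨K, i1, i2, i3, i4, y, hy, htop, s, W, hW, hP, hfix⟩ := PRG.exG hℓ (toGBr b)
      ((ratG_iff b).2 hb) hc
    exact ⟨K, i1, i2, i3, i4, y, hy, htop, s, fun N hN =>
      ⟨W, ⟨hW, fun w hw => ⟨hN w hw, fun g => hfix ⟨w, hN w hw⟩ g⟩⟩, fun x => (hP x).symm⟩⟩
  by_cases h2 : ℓ = 2
  · subst h2
    refine ⟨id, tendsto_id, zeroPercent_of hℓ hζ (PD.rare_mono29 (fun c hc => ?_)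
      (PRL.rare_or45 hR.2 hU))⟩
    exact othG_of (N := sectionLevel k K₀ 2 (id (cond 2 c)))
      (fun K _ _ _ y => (if_pos rfl).trans (level_eq 2 y)) (fun K _ _ _ y => le_rfl) hc
  · obtain ⟨M, -, hM, hMR⟩ := PRG.rareGD k K₀ ℓ h hℓ hζ hG (ndG HB) h2
    refine ⟨fun X => max (M X) 1, tendsto_atTop_mono (fun X => le_max_left _ _) hM, ?_⟩
    refine zeroPercent_of hℓ hζ (PD.rare_mono29 (fun c hc => ?_)
      (PRL.rare_or45 (PRL.rare_or45 hMR (hR.1 h2 1)) hU))
    rcases othG_of (N := sectionLevel k K₀ ℓ (max (M (cond ℓ c)) 1))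
      (N' := fun _ _ _ _ y => PRG.TG k K₀ y ℓ (max (M (cond ℓ c)) 1))
      (fun K _ _ _ y => (if_neg h2).trans (tower_eq ℓ y _))
      (fun K _ _ _ y => yg_le_tg y (le_max_right _ _)) hc with h | h
    · left
      rcases le_total 1 (M (cond ℓ c)) with h3 | h3
      · rw [max_eq_left h3] at h
        exact Or.inl ⟨_, le_rfl, h⟩
      · rw [max_eq_right h3] at h
        exact Or.inr h
    · exact Or.inr h

end

end Pool.Agent.Helper97.Draft.PrimeDegreeTwists8
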