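import Pool.Agent.Helper59.FF.KP
import Pool.Agent.Helper45.FF.PR.H2
import Pool.Agent.Helper45.FF.PR.G6
import Pool.Agent.Helper13.FF.LEVP
import Pool.Agent.Helper10.FF.FSF
import Pool.Agent.Helper97.FF.ConvP
import Pool.Agent.Helper97.FF.GC0

/-!
# The pro-`ℓ` section conjecture for the general twists of cyclic covers of prime degree

Let `F₀ ⊂ k₀` be fields of characteristic zero, `k₀` finitely generated and a function field of one variable over
`F₀`, and let `w_0, …, w_m` be elements of `k₀`, four of which are linearly independent over the algebraic closure of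
`F₀` in `k₀`.  (For example `k₀ = F₀(t)` and `w_e = t ^ e` for `e = 0, …, m`, `m ≥ 3`; or a basis of a
Riemann-Roch space `L(D)` of dimension at least four on a curve over `F₀`.)

Let `K₀` be the function field of a curve over `k₀`, let `ℓ` be a prime number and `h ∈ K₀`.  We consider the twists
`v y ^ ℓ = h` of the cyclic cover `y ^ ℓ = h` for `v = a_0 w_0 + … + a_m w_m`.  Here the `a_e` are elements of any
finitely generated extension field `F` of `F₀`, and everything is considered over a composite `k = F k₀` in which `F`
and `k₀` are algebraically free over `F₀`: let `K₁ = k K₀` be the function field of the base change of the curve, we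
assume that it is geometrically integral and that the cover has at least three geometric branch points (the points `P`
with `ℓ ∤ v_P(h)`), and let `X_v` be the curve over `k` with function field `K = K₁(y)`, `v y ^ ℓ = h`.

Let `Kur` be the maximal unramified extension of `K` in an algebraic closure, so that `Gal(Kur / K) = π₁(X_v)`, and let
`KurL ⊂ Kur` be the maximal extension which is pro-`ℓ` over `kbar K`, so that `Π = Gal(KurL / K)` is the quotient of
`π₁(X_v)` by the kernel of the maximal pro-`ℓ` quotient of the geometric fundamental group.  A section of `Π` is a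
continuous homomorphism `s : Gal(kbar / k) → Π` with `s(σ) = σ` on `kbar`.  Every Galois section of `X_v`, and of every
curve over `k` which maps onto `X_v`, induces a section of `Π`.

**Theorem.**  There is ONE polynomial `Q(A_0, …, A_m, X)` with coefficients in `F₀`, which has no root in the field of
rational functions `F̄₀(A_0, …, A_m)`, such that the following holds for all finitely generated `F ⊇ F₀`, all
composites `k = F k₀` and all points `a` over `F` such that `Q(a, X)` has no root in `F`:

* every section `s` of `Π` comes from exactly one rational branch point `P`: it fixes a place of `KurL` above `P`;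
* every rational branch point gives such a section.

Above a rational branch point `P` there is exactly one point of `X_v`, and it is rational.  So the theorem is the
pro-`ℓ` form of the section conjecture for `X_v`: the sections of `Π` are exactly the sections of the rational branch
points.  For the sections of `π₁(X_v)`, and of every curve over `k` which maps onto `X_v`, it says that their images in
`Π` are the sections of the rational branch points (two sections with the same image in `Π` are not compared); and if
there is no rational branch point, then `X_v` has no section, and neither has any curve over `k` which maps onto it.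

The exceptional points `a` form a thin set in the sense of Serre, which is given by the same polynomial `Q` for all
fields of constants `F`.  There is no condition on the curve, on `h` and on the residue fields of the branch points.
The curves `X_v` need not be isotrivial, and may have rational points: for example one may take the curves
`v y ² = x ⁵ - x + t` over `k = F(t)`, where `v` is a general polynomial in `t` of degree at most `m`, `m ≥ 3`: all
sections of `Π` come from the point at infinity.
-/

set_option autoImplicit false

namespace Pool.Agent.Helper97.Draft.ProTwists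

open Polynomial VC Pool.Agent.Helper91.Sect

noncomputable section

/-- The polynomial `Q(a, X)`, whose coefficients are polynomials over `F₀` in the variables `a`, has no root in the
field of rational functions in these variables over the algebraic closure of `F₀`. -/
def NoRoot {F₀ : Type} [Field F₀] {I : Type} (Q : (MvPolynomial I F₀)[X]) : Prop :=
  ∀ r : FractionRing (MvPolynomial I (AlgebraicClosure F₀)),
    eval₂ ((algebraMap (MvPolynomial I (AlgebraicClosure F₀))
      (FractionRing (MvPolynomial I (AlgebraicClosure F₀)))).comp
        (MvPolynomial.map (algebraMap F₀ (AlgebraicClosure F₀)))) r Q ≠ 0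

/-- The polynomial `Q(a, X)` in one variable `X` over `F`, for a point `a` over `F`. -/
def value {F₀ F : Type} [Field F₀] [Field F] [Algebra F₀ F] {I : Type}
    (Q : (MvPolynomial I F₀)[X]) (a : I → F) : F[X] :=
  Q.map (MvPolynomial.aeval a : MvPolynomial I F₀ →ₐ[F₀] F).toRingHom

/-- The field `k` is a composite of `F` and `k₀` over `F₀`, in which `F` and `k₀` are algebraically free over `F₀`:
it is generated by `F` and `k₀`, and elements of `k₀` which are algebraically independent over `F₀` are
algebraically independent over `F`. -/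
def FreeComposite (F₀ k₀ F k : Type) [Field F₀] [Field k₀] [Field F] [Field k] [Algebra F₀ k₀]
    [Algebra F k] [Algebra k₀ k] : Prop :=
  IntermediateField.adjoin F (Set.range (algebraMap k₀ k)) = ⊤ ∧
    ∀ (n : ℕ) (x : Fin n → k₀), AlgebraicIndependent F₀ x →
      AlgebraicIndependent F fun i => algebraMap k₀ k (x i)

/-- `K₁` is the function field of the base change to `k` of the curve over `k₀` with function field `K₀`, and this is
geometrically integral: `K₁` is generated by `k` and `K₀`, some element of `K₀` is transcendental over `k`, and `k` is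
algebraically closed in `K₁`. -/
structure IsBaseChange (K₀ k K₁ : Type) [Field K₀] [Field k] [Field K₁] [Algebra K₀ K₁]
    [Algebra k K₁] : Prop where
  gen : IntermediateField.adjoin k (Set.range (algebraMap K₀ K₁)) = ⊤
  free : ∃ x : K₀, Transcendental k (algebraMap K₀ K₁ x)
  closed : ∀ z : K₁, IsAlgebraic k z → ∃ a : k, algebraMap k K₁ a = z

section branch

variable (k : Type) [Field k] {K₁ : Type} [Field K₁] [Algebra k K₁] (ℓ : ℕ) (h : K₁)

/-- A geometric branch point of `y ^ ℓ = h`: a valuation ring `P` of `K₁` containing `k` at which the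
value of `h` is not the `ℓ`-th power of a value, with a homomorphism over `k` from `P` to the
algebraic closure of `k`, that is an embedding of its residue field. -/
@[ext] structure BranchPoint where
  P : ValuationSubring K₁
  φ : P →+* AlgebraicClosure k
  const : ∀ a : k, algebraMap k K₁ a ∈ P
  ram : ∀ z : K₁, P.valuation h ≠ P.valuation z ^ ℓ
  emb : ∀ (a : k) (x : P), (x : K₁) = algebraMap k K₁ a →
    φ x = algebraMap k (AlgebraicClosure k) a

variable {k ℓ h}

/-- The action of the Galois group on the geometric branch points. -/
def BranchPoint.map (b : BranchPoint k ℓ h) (σ : AlgebraicClosure k ≃ₐ[k] AlgebraicClosure k) :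
    BranchPoint k ℓ h where
  P := b.P
  φ := (σ : AlgebraicClosure k →+* AlgebraicClosure k).comp b.φ
  const := b.const
  ram := b.ram
  emb := fun a x hx => by
    change σ (b.φ x) = _
    rw [b.emb a x hx, σ.commutes]

/-- The branch point is rational over `k`. -/
def BranchPoint.IsRational (b : BranchPoint k ℓ h) : Prop := ∀ σ, b.map σ = b

end branch

section pro

variable (ℓ : ℕ) (k K : Type) [Field k] [Field K] [Algebra k K]

/-- The maximal geometrically pro-`ℓ` subextension `KurL` of `Kur / K`: the elements `z` of `Kur` such that for every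
automorphism `σ` of `Kur` over `K` which is trivial on the constants, `σ ^ (ℓ ^ j) z = z` for some `j`. -/
def KurL : Type := Pool.Agent.GCL.KurL ℓ k K

instance : Field (KurL ℓ k K) := (Pool.Agent.GCL.KurL ℓ k K).toField

instance : Algebra K (KurL ℓ k K) := (Pool.Agent.GCL.KurL ℓ k K).algebra'

variable {ℓ k K} in
/-- The inclusion of `KurL` into the algebraic closure of `K`. -/
def KurL.val (z : KurL ℓ k K) : AlgebraicClosure K := Subtype.val z

/-- The geometrically pro-`ℓ` fundamental group `Π = Gal(KurL / K)`. -/
abbrev PiL : Type := KurL ℓ k K ≃ₐ[K] KurL ℓ k K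

/-- The sections of `Π = Gal(KurL / K)`: the continuous homomorphisms `s : Gal(kbar / k) → Π` with `s(σ) = σ` on
`kbar`. -/
structure ProSection where
  toHom : Gk k K →* PiL ℓ k K
  continuous_toHom : Continuous toHom
  isSection : ∀ (σ : Gk k K) (z : kbar k K) (w : KurL ℓ k K), w.val = z → (toHom σ w).val = σ z

end pro

/-- The section `s` comes from the point `P` of the curve with function field `K₁`: it fixes a place of `KurL` above
`P`, that is, a valuation ring `Q` of `KurL` which contains the constants, and whose intersection with `K₁` is `P`. -/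
def ComesFrom {ℓ : ℕ} {k K₁ K : Type} [Field k] [Field K₁] [Field K] [Algebra k K]
    [Algebra K₁ K] (s : ProSection ℓ k K) (P : ValuationSubring K₁) : Prop :=
  ∃ Q : ValuationSubring (KurL ℓ k K),
    (∀ z : KurL ℓ k K, IsAlgebraic k z.val → z ∈ Q) ∧
    (∀ x : K₁, x ∈ P ↔ algebraMap K (KurL ℓ k K) (algebraMap K₁ K x) ∈ Q) ∧
    ∀ (g : Gk k K) (z : KurL ℓ k K), s.toHom g z ∈ Q ↔ z ∈ Q

/-- The pro-`ℓ` section conjecture for the curve `v y ^ ℓ = h`, in the form that the sections of its geometrically
pro-`ℓ` fundamental group are the sections of the rational branch points: if `K = K₁(y)` with `v y ^ ℓ = h`, every section of `Gal(KurL / K)` comes from exactly one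
rational branch point, and every rational branch point gives a section. -/
def ProSC (k : Type) {K₁ : Type} [Field k] [Field K₁] [Algebra k K₁]
    (ℓ : ℕ) (h : K₁) (v : k) : Prop :=
  ∀ (K : Type) [Field K] [Algebra k K] [Algebra K₁ K] [IsScalarTower k K₁ K] (y : K),
    algebraMap k K v * y ^ ℓ = algebraMap K₁ K h → IntermediateField.adjoin K₁ {y} = ⊤ →
    (∀ s : ProSection ℓ k K, ∃! P : ValuationSubring K₁,
      (∃ b : BranchPoint k ℓ h, b.IsRational ∧ b.P = P) ∧ ComesFrom s P) ∧
    ∀ b : BranchPoint k ℓ h, b.IsRational → ∃ s : ProSection ℓ k K, ComesFrom s b.P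

/-! ## The translation to the project files -/

section bridge

open Pool.Agent

variable {k : Type} [Field k] {K₁ : Type} [Field K₁] [Algebra k K₁] {ℓ : ℕ} {h : K₁}

def toGBr : BranchPoint k ℓ h ≃ Pool.Agent.ML.GBr k (AlgebraicClosure k) ℓ h where
  toFun b := ⟨b.P, b.φ, b.const, b.ram, b.emb⟩
  invFun b := ⟨b.P, b.φ, b.const, b.ram, b.emb⟩
  left_inv _ := rfl
  right_inv _ := rfl

theorem ratG_iff (b : BranchPoint k ℓ h) : PRG.RatG (toGBr b) ↔ b.IsRational := by
  constructor
  · exact fun hb σ => toGBr.injective (hb σ)
  · exact fun hb σ => congrArg toGBr (hb σ)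

/-- The sections of `Π`, in the form of the project files. -/
def toPro {K : Type} [Field K] [Algebra k K] (s : ProSection ℓ k K) : Pool.Agent.GCL.ProSection ℓ k K where
  toHom := s.toHom
  continuous_toHom := s.continuous_toHom
  isSection := s.isSection

def ofPro {K : Type} [Field K] [Algebra k K] (s : Pool.Agent.GCL.ProSection ℓ k K) : ProSection ℓ k K where
  toHom := s.toHom
  continuous_toHom := s.continuous_toHom
  isSection := s.isSection

theorem comesFrom_iff {K : Type} [Field K] [Algebra k K] [Algebra K₁ K] {s : ProSection ℓ k K}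
    {P : ValuationSubring K₁} : ComesFrom s P ↔ Pool.Agent.FFS.AgrP (toPro s) P :=
  Iff.rfl

theorem comesFrom_of {K : Type} [Field K] [Algebra k K] [Algebra K₁ K]
    {s : Pool.Agent.GCL.ProSection ℓ k K}
    {P : ValuationSubring K₁} (hs : Pool.Agent.FFS.AgrP s P) : ComesFrom (ofPro s) P :=
  hs

end bridge

/-- In particular, every Galois section of `v y ^ ℓ = h` induces on `KurL` the section of exactly one rational branch
point. -/
theorem of_galois {k K₁ K : Type} [Field k] [Field K₁] [Algebra k K₁] {ℓ : ℕ} {h : K₁} {v : k}
    (H : ProSC k ℓ h v) [Field K] [Algebra k K] [Algebra K₁ K]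
    [IsScalarTower k K₁ K] {y : K} (hy : algebraMap k K v * y ^ ℓ = algebraMap K₁ K h)
    (htop : IntermediateField.adjoin K₁ {y} = ⊤) (s : GaloisSection k K) :
    ∃! P : ValuationSubring K₁, (∃ b : BranchPoint k ℓ h, b.IsRational ∧ b.P = P) ∧
      ComesFrom (ofPro (Pool.Agent.FFS.resPro97 ℓ s)) P :=
  (H K y hy htop).1 _

/-- **The pro-`ℓ` section conjecture for the general twists of a cyclic cover of prime degree.** -/
theorem result {F₀ k₀ K₀ : Type} [Field F₀] [CharZero F₀] [Field k₀] [Algebra F₀ k₀]
    [Field K₀] [Algebra k₀ K₀]
    -- `k₀` is a finitely generated field, and a function field of one variable over `F₀`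
    (hk₀ : ∃ S : Finset k₀, Subfield.closure (S : Set k₀) = ⊤) (hF₀ : IsFunctionField F₀ k₀)
    -- `K₀` is the function field of a curve over `k₀`
    (hK₀ : IsFunctionField k₀ K₀)
    -- four of the elements `w_0, …, w_m` of `k₀` are linearly independent over the algebraic closure of `F₀` in `k₀`
    {m : ℕ} (w : Fin (m + 1) → k₀)
    (hw : ∃ e : Fin 4 → Fin (m + 1),
      LinearIndependent (algebraicClosure F₀ k₀) fun i => w (e i))
    -- the cover `y ^ ℓ = h`
    {ℓ : ℕ} (hℓ : ℓ.Prime) (h : K₀) :
    -- there is one polynomial `Q` over `F₀`, without root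
    ∃ Q : (MvPolynomial (Fin (m + 1)) F₀)[X], NoRoot Q ∧
      -- such that the following holds for all composites `k = F k₀`
      ∀ (F k K₁ : Type) [Field F] [Field k] [Field K₁] [Algebra F₀ F] [Algebra F₀ k]
        [Algebra F k] [Algebra k₀ k] [IsScalarTower F₀ F k] [IsScalarTower F₀ k₀ k]
        [Algebra k K₁] [Algebra K₀ K₁] [Algebra k₀ K₁] [IsScalarTower k₀ k K₁]
        [IsScalarTower k₀ K₀ K₁],
        (∃ S : Finset F, Subfield.closure (S : Set F) = ⊤) → FreeComposite F₀ k₀ F k →
        -- if `K₁ = k K₀` is the function field of a geometrically integral curve over `k`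
        IsBaseChange K₀ k K₁ →
        -- and the cover has at least three geometric branch points
        3 ≤ Nat.card (BranchPoint k ℓ (algebraMap K₀ K₁ h)) →
        -- for all `a` over `F` such that `Q(a, X)` has no root in `F`, and `v = a_0 w_0 + … + a_m w_m`
        ∀ a : Fin (m + 1) → F, (∀ x : F, eval x (value Q a) ≠ 0) →
          ProSC k ℓ (algebraMap K₀ K₁ h)
            (∑ e, algebraMap F k (a e) * algebraMap k₀ k (w e)) := by
  classical
  by_cases hh : h = 0
  · -- there are no branch points
    refine ⟨1, fun r => ?_, ?_⟩
    · rw [eval₂_one]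
      exact one_ne_zero
    · intro F k K₁ _ _ _ _ _ _ _ _ _ _ _ _ _ _ hF hfree hbc h3
      have h0 : algebraMap K₀ K₁ h = 0 := by rw [hh, map_zero]
      have hem : IsEmpty (BranchPoint k ℓ (algebraMap K₀ K₁ h)) :=
        ⟨fun b => b.ram 0 ((congrArg b.P.valuation h0).trans
          (by rw [map_zero, zero_pow hℓ.ne_zero]))⟩
      rw [Nat.card_of_isEmpty] at h3
      omega
  obtain ⟨e, he⟩ := hw
  obtain ⟨t, ht1, ht2⟩ := hF₀
  obtain ⟨Q, hQ, hmain⟩ := Pool.Agent.FFS.mainP2_of Pool.Agent.FFX.stmtFS Pool.Agent.FFS.stmtKP
    (Pool.Agent.FFP20.stmtLOCP2 Pool.Agent.FFS.stmtLP) Pool.Agent.FFS.stmtLEVP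
    F₀ k₀ K₀ hk₀ ⟨t, ht2, ht1⟩ hK₀ m w e he ℓ hℓ h hh
  refine ⟨Q, hQ, ?_⟩
  intro F k K₁ _ _ _ _ _ _ _ _ _ _ _ _ _ _ hF hfree hbc h3 a ha
  have hck₀ : CharZero k₀ := charZero_of_injective_algebraMap (algebraMap F₀ k₀).injective
  have hck : CharZero k := charZero_of_injective_algebraMap (algebraMap k₀ k).injective
  have hff : IsFunctionField k K₁ := by
    obtain ⟨x, hx1, hx2⟩ := id hK₀
    exact ⟨algebraMap K₀ K₁ x, Pool.Agent.TWU.transc_map hK₀ hx1 hbc.free,
      Pool.Agent.FFS.fin_lift97 hx2 hbc.gen⟩
  have hcard : 3 ≤ Nat.card (Pool.Agent.ML.GBr k (AlgebraicClosure k) ℓ (algebraMap K₀ K₁ h)) := by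
    rw [← Nat.card_congr toGBr]
    exact h3
  have hG := Pool.Agent.PRG.gCG0 k K₁ ℓ _ hℓ hff hbc.closed hcard
  have h3' : ∃ b : Fin 3 → Pool.Agent.ML.GBr k (AlgebraicClosure k) ℓ (algebraMap K₀ K₁ h),
      Function.Injective b := by
    have hfin : Finite (Pool.Agent.ML.GBr k (AlgebraicClosure k) ℓ (algebraMap K₀ K₁ h)) :=
      Nat.finite_of_card_ne_zero (by omega)
    have hft := Fintype.ofFinite (Pool.Agent.ML.GBr k (AlgebraicClosure k) ℓ (algebraMap K₀ K₁ h))
    rw [Nat.card_eq_fintype_card] at hcard
    obtain ⟨f⟩ := Function.Embedding.nonempty_of_card_le (α := Fin 3)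
      (β := Pool.Agent.ML.GBr k (AlgebraicClosure k) ℓ (algebraMap K₀ K₁ h))
      (by rw [Fintype.card_fin]; exact hcard)
    exact ⟨f, f.injective⟩
  intro K _ _ _ _ y hy htop
  have hv : (∑ e, algebraMap F k (a e) * algebraMap k₀ k (w e)) ≠ 0 := by
    intro h0
    rw [h0, map_zero, zero_mul] at hy
    exact hh ((algebraMap K₀ K₁).injective ((algebraMap K₁ K).injective
      (by rw [← hy, map_zero, map_zero])))
  refine ⟨fun s => ?_, fun b hb => ?_⟩
  rotate_left
  · obtain ⟨s, hs⟩ := Pool.Agent.FFS.conv_pro97 hℓ (toGBr b) ((ratG_iff b).2 hb) hv hy htop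
    exact ⟨ofPro s, comesFrom_of hs⟩
  obtain ⟨b, R, hb, hR, hbR, hun⟩ := hmain F k K₁ hF hfree.1 (fun {n x} hx => hfree.2 n x hx)
    hbc.gen hbc.free hG h3' a (fun x => by
      have h1 := ha x
      unfold value at h1
      rw [eval_map] at h1
      exact h1) K y hy htop (toPro s)
  refine ⟨b.P, ⟨⟨toGBr.symm b, (ratG_iff _).1 (by rwa [Equiv.apply_symm_apply]), rfl⟩, R,
    hR.const, hbR, hR.stable⟩, ?_⟩
  rintro P' ⟨⟨b', hb', rfl⟩, hA⟩
  obtain ⟨R', hR', hbR'⟩ := Pool.Agent.FFS.exists_stabP (b := toGBr b') (comesFrom_iff.1 hA)
  have hRR := hun R' hR'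
  subst hRR
  exact ValuationSubring.ext _ _ fun x => (hbR' x).trans (hbR x).symm

end

end Pool.Agent.Helper97.Draft.ProTwists
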